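import Mathlib
import Pool.Agent.Run7.h166.TS.Lists

/-!
# Iterated ultrafilters

`Ab P U k s`: for `U`-almost all `x 1`, for `U`-almost all `x 2`, …, the set `s ∪ {x 1, …, x k}` has the
property `P`. Here: choosing lists all of whose subsets are generic, and the coloured Maynard-Tao property
for four ultrafilters.
-/

set_option autoImplicit false

namespace Pool.Agent.Run7.h166.GS

open Filter Finset
open Pool.Agent.Run7.h166.TS (Win two_groups)

variable {α : Type} [DecidableEq α]

/-- for `U`-almost all `x 1`, for `U`-almost all `x 2`, …, `P (s ∪ {x 1, …, x k})` -/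
def Ab (P : Finset α → Prop) (U : Ultrafilter α) : ℕ → Finset α → Prop
  | 0, s => P s
  | k + 1, s => ∀ᶠ x in (U : Filter α), Ab P U k (insert x s)

theorem ab_mono {P Q : Finset α → Prop} {U : Ultrafilter α} (h : ∀ s, P s → Q s) :
    ∀ (k : ℕ) (s : Finset α), Ab P U k s → Ab Q U k s := by
  intro k
  induction k with
  | zero => intro s hs; exact h s hs
  | succ k ih => intro s hs; exact Filter.Eventually.mono hs fun x hx => ih _ hx

theorem ab_congr {P Q : Finset α → Prop} {U : Ultrafilter α} (h : ∀ s, P s ↔ Q s) (k : ℕ) (s : Finset α) :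
    Ab P U k s ↔ Ab Q U k s :=
  ⟨ab_mono (fun s => (h s).1) k s, ab_mono (fun s => (h s).2) k s⟩

theorem ab_not (P : Finset α → Prop) (U : Ultrafilter α) :
    ∀ (k : ℕ) (s : Finset α), ¬ Ab P U k s ↔ Ab (fun s => ¬ P s) U k s := by
  intro k
  induction k with
  | zero => intro s; exact Iff.rfl
  | succ k ih =>
    intro s
    show (¬ ∀ᶠ x in (U : Filter α), Ab P U k (insert x s)) ↔
      ∀ᶠ x in (U : Filter α), Ab (fun s => ¬ P s) U k (insert x s)
    rw [← Ultrafilter.eventually_not]
    exact Filter.eventually_congr (Filter.Eventually.of_forall fun x => ih _)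

theorem ab_hered {P : Finset α → Prop} (hP : ∀ s t : Finset α, s ⊆ t → P t → P s) {U : Ultrafilter α} :
    ∀ (k : ℕ) (s t : Finset α), s ⊆ t → Ab P U k t → Ab P U k s := by
  intro k
  induction k with
  | zero => intro s t hst h; exact hP s t hst h
  | succ k ih =>
    intro s t hst h
    exact Filter.Eventually.mono h fun x hx => ih _ _ (insert_subset_insert x hst) hx

theorem ab_succ_imp {P : Finset α → Prop} (hP : ∀ s t : Finset α, s ⊆ t → P t → P s) {U : Ultrafilter α} :
    ∀ (k : ℕ) (s : Finset α), Ab P U (k + 1) s → Ab P U k s := by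
  intro k
  induction k with
  | zero =>
    intro s h
    obtain ⟨x, hx⟩ := Filter.Eventually.exists h
    exact hP _ _ (subset_insert x s) hx
  | succ k ih =>
    intro s h
    exact Filter.Eventually.mono h fun x hx => ih _ hx

theorem ab_le {P : Finset α → Prop} (hP : ∀ s t : Finset α, s ⊆ t → P t → P s) {U : Ultrafilter α}
    {j k : ℕ} (hjk : j ≤ k) (s : Finset α) (h : Ab P U k s) : Ab P U j s := by
  induction hjk with
  | refl => exact h
  | step _ ih => exact ih (ab_succ_imp hP _ s h)

theorem ab_add (P : Finset α → Prop) (U : Ultrafilter α) (j : ℕ) :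
    ∀ (k : ℕ) (s : Finset α), Ab (Ab P U j) U k s ↔ Ab P U (k + j) s := by
  intro k
  induction k with
  | zero => intro s; rw [Nat.zero_add]; exact Iff.rfl
  | succ k ih =>
    intro s
    have e : k + 1 + j = (k + j) + 1 := by omega
    rw [e]
    exact Filter.eventually_congr (Filter.Eventually.of_forall fun x => ih _)

/-- **a list all of whose subsets are generic** -/
theorem gen_list (U : Ultrafilter α) (hU : ∀ E : Finset α, ∀ᶠ x in (U : Filter α), x ∉ E) (C : Set α)
    (hC : C ∈ U) : ∀ (n : ℕ) (R : List ((Finset α → Prop) × Finset α × ℕ)),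
    (∀ r ∈ R, Ab r.1 U r.2.2 r.2.1) → ∀ E : Finset α,
    ∃ X : List α, X.length = n ∧ X.Nodup ∧ (∀ x ∈ X, x ∈ C ∧ x ∉ E) ∧
      ∀ r ∈ R, ∀ P ⊆ X.toFinset, P.card = r.2.2 → r.1 (r.2.1 ∪ P) := by
  intro n
  induction n with
  | zero =>
    intro R hR E
    refine ⟨[], rfl, List.nodup_nil, by simp, ?_⟩
    intro r hr P hP hc
    rw [List.toFinset_nil, subset_empty] at hP
    subst hP
    have h := hR r hr
    rw [← hc] at h
    rw [union_empty]
    exact h
  | succ n ih =>
    intro R hR E
    have h1 : ∀ᶠ x in (U : Filter α), ∀ r ∈ {r | r ∈ R}, 1 ≤ r.2.2 →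
        Ab r.1 U (r.2.2 - 1) (insert x r.2.1) := by
      rw [Filter.eventually_all_finite (List.finite_toSet R)]
      intro r hr
      by_cases h : 1 ≤ r.2.2
      · have h2 := hR r hr
        obtain ⟨k, hk⟩ : ∃ k, r.2.2 = k + 1 := ⟨r.2.2 - 1, by omega⟩
        rw [hk] at h2
        refine Filter.Eventually.mono h2 fun x hx _ => ?_
        rw [hk]
        exact hx
      · exact Filter.Eventually.of_forall fun x h2 => absurd h2 h
    obtain ⟨x, hx1, hx2, hx3⟩ := (h1.and ((show ∀ᶠ x in (U : Filter α), x ∈ C from hC).and (hU E))).exists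
    obtain ⟨X, hX1, hX2, hX3, hX4⟩ := ih (R ++ (R.filter (fun r => 1 ≤ r.2.2)).map
      (fun r => (r.1, insert x r.2.1, r.2.2 - 1))) (by
        intro r hr
        rcases List.mem_append.1 hr with hr | hr
        · exact hR r hr
        · obtain ⟨r', hr', rfl⟩ := List.mem_map.1 hr
          obtain ⟨h2, h3⟩ := List.mem_filter.1 hr'
          exact hx1 r' h2 (by simpa using h3)) (insert x E)
    have hxX : x ∉ X := fun h => (hX3 x h).2 (mem_insert_self _ _)
    refine ⟨x :: X, by rw [List.length_cons, hX1], List.nodup_cons.2 ⟨hxX, hX2⟩, ?_, ?_⟩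
    · intro y hy
      rcases List.mem_cons.1 hy with rfl | hy
      · exact ⟨hx2, hx3⟩
      · exact ⟨(hX3 y hy).1, fun h => (hX3 y hy).2 (mem_insert_of_mem h)⟩
    · intro r hr P hP hc
      rw [List.toFinset_cons] at hP
      by_cases hxP : x ∈ P
      · have hc1 : (P.erase x).card = r.2.2 - 1 := by rw [card_erase_of_mem hxP, hc]
        have hpos : 1 ≤ r.2.2 := by
          rw [← hc]
          exact card_pos.2 ⟨x, hxP⟩
        have h2 := hX4 (r.1, insert x r.2.1, r.2.2 - 1) (List.mem_append_right _ (List.mem_map.2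
          ⟨r, List.mem_filter.2 ⟨hr, by simpa using hpos⟩, rfl⟩)) (P.erase x) (by
          intro y hy
          obtain ⟨hy1, hy2⟩ := mem_erase.1 hy
          exact (mem_insert.1 (hP hy2)).resolve_left hy1) hc1
        have e : r.2.1 ∪ P = insert x r.2.1 ∪ P.erase x := by
          rw [insert_union, ← union_insert, insert_erase hxP]
        rw [e]
        exact h2
      · refine hX4 r (List.mem_append_left _ hr) P ?_ hc
        intro y hy
        refine (mem_insert.1 (hP hy)).resolve_left ?_
        rintro rfl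
        exact hxP hy

/-- generic sets of `k` elements of `W`, followed by generic sets of `k` elements of `W'`, are good -/
def Dir (good : Finset α → Prop) (k : ℕ) (W W' : Ultrafilter α) : Prop := Ab (Ab good W' k) W k ∅

/-- the hypothesis: hits in blocks -/
def Hits (good : Finset α → Prop) (k S K : ℕ) (C : Fin (3 + 1) → Set α) : Prop :=
  ∀ X : Fin (3 + 1) × Fin S × Fin K → α, Function.Injective X → (∀ u, X u ∈ C u.1) →
    ∃ s : Finset α, good s ∧ ∃ B : Finset (Fin (3 + 1) × Fin S), S + 3 * k < B.card ∧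
      ∀ b ∈ B, ∃ i, X (b.1, b.2, i) ∈ s

/-- **two of four ultrafilters are connected** -/
theorem dir_of_hits {good : Finset α → Prop} (hh : ∀ s t : Finset α, s ⊆ t → good t → good s)
    {k S K : ℕ} (W : Fin (3 + 1) → Ultrafilter α)
    (hW : ∀ g, ∀ E : Finset α, ∀ᶠ x in (W g : Filter α), x ∉ E) (C : Fin (3 + 1) → Set α)
    (hC : ∀ g, C g ∈ W g) (hX : Hits good k S K C) :
    ∃ g g' : Fin (3 + 1), g < g' ∧ Dir good k (W g) (W g') := by
  classical
  by_contra hcon
  push Not at hcon
  have key : ∀ m : ℕ, m ≤ 3 + 1 → ∃ X : Fin (3 + 1) → List α, ∀ g : Fin (3 + 1), (g : ℕ) < m →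
      (X g).length = S * K ∧ (X g).Nodup ∧ (∀ x ∈ X g, x ∈ C g) ∧
      (∀ g' : Fin (3 + 1), g < g' → ∀ P ⊆ (X g).toFinset, P.card = k → ¬ Ab good (W g') k P) ∧
      ∀ g' : Fin (3 + 1), g' < g → (∀ x ∈ X g, x ∉ X g') ∧
        ∀ P ⊆ (X g).toFinset, ∀ P' ⊆ (X g').toFinset, P.card = k → P'.card = k → ¬ good (P' ∪ P) := by
    intro m
    induction m with
    | zero => intro _; exact ⟨fun _ => [], fun g hg => absurd hg (Nat.not_lt_zero _)⟩
    | succ m ih =>
      intro hm
      obtain ⟨X, hX⟩ := ih (by omega)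
      set g₀ : Fin (3 + 1) := ⟨m, by omega⟩ with hg₀
      set R₁ : List ((Finset α → Prop) × Finset α × ℕ) :=
        ((univ.filter (fun g' : Fin (3 + 1) => g₀ < g')).toList).map
          (fun g' => ((fun s => ¬ Ab good (W g') k s), (∅ : Finset α), k)) with hR₁
      set PP : Finset (Finset α) := (univ.filter (fun g' : Fin (3 + 1) => g' < g₀)).biUnion
        (fun g' => (X g').toFinset.powersetCard k) with hPP
      set R₂ : List ((Finset α → Prop) × Finset α × ℕ) :=
        PP.toList.map (fun P => ((fun s => ¬ good s), P, k)) with hR₂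
      obtain ⟨Y, hY1, hY2, hY3, hY4⟩ := gen_list (W g₀) (hW g₀) (C g₀) (hC g₀) (S * K) (R₁ ++ R₂) (by
        intro r hr
        rcases List.mem_append.1 hr with hr | hr
        · obtain ⟨g', hg', rfl⟩ := List.mem_map.1 hr
          rw [Finset.mem_toList, mem_filter] at hg'
          exact (ab_not _ _ _ _).1 (hcon g₀ g' hg'.2)
        · obtain ⟨P, hP, rfl⟩ := List.mem_map.1 hr
          rw [Finset.mem_toList, hPP, mem_biUnion] at hP
          obtain ⟨g', hg', hP⟩ := hP
          rw [mem_filter] at hg'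
          rw [mem_powersetCard] at hP
          have h2 := (hX g' (by
            have := hg'.2
            rw [Fin.lt_def] at this
            exact this)).2.2.2.1 g₀ hg'.2 P hP.1 hP.2
          exact (ab_not _ _ _ _).1 h2)
        ((univ.filter (fun g' : Fin (3 + 1) => g' < g₀)).biUnion (fun g' => (X g').toFinset))
      refine ⟨Function.update X g₀ Y, ?_⟩
      intro g hg
      by_cases hgg : g = g₀
      · subst hgg
        rw [Function.update_self]
        refine ⟨hY1, hY2, fun x hx => (hY3 x hx).1, ?_, ?_⟩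
        · intro g' hg' P hP hc
          have h2 := hY4 ((fun s => ¬ Ab good (W g') k s), (∅ : Finset α), k)
            (List.mem_append_left _ (List.mem_map.2 ⟨g', by
              rw [Finset.mem_toList, mem_filter]; exact ⟨mem_univ _, hg'⟩, rfl⟩)) P hP hc
          simpa using h2
        · intro g' hg'
          have hne : g' ≠ g₀ := ne_of_lt hg'
          rw [Function.update_of_ne hne]
          refine ⟨?_, ?_⟩
          · intro x hx hx'
            refine (hY3 x hx).2 (mem_biUnion.2 ⟨g', mem_filter.2 ⟨mem_univ _, hg'⟩, ?_⟩)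
            rwa [List.mem_toFinset]
          · intro P hP P' hP' hc hc'
            exact hY4 ((fun s => ¬ good s), P', k) (List.mem_append_right _ (List.mem_map.2 ⟨P', by
              rw [Finset.mem_toList, hPP, mem_biUnion]
              exact ⟨g', mem_filter.2 ⟨mem_univ _, hg'⟩, mem_powersetCard.2 ⟨hP', hc'⟩⟩, rfl⟩)) P hP hc
      · have hlt : (g : ℕ) < m := by
          have : (g : ℕ) ≠ m := fun h => hgg (Fin.ext h)
          omega
        rw [Function.update_of_ne hgg]
        obtain ⟨h1, h2, h3, h4, h5⟩ := hX g hlt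
        refine ⟨h1, h2, h3, h4, ?_⟩
        intro g' hg'
        have hne : g' ≠ g₀ := by
          rintro rfl
          rw [Fin.lt_def] at hg'
          have : ((g₀ : Fin (3 + 1)) : ℕ) = m := rfl
          omega
        rw [Function.update_of_ne hne]
        exact h5 g' hg'
  obtain ⟨X, hXX⟩ := key (3 + 1) le_rfl
  have hXX' := fun g : Fin (3 + 1) => hXX g g.2
  set Y : Fin (3 + 1) × Fin S × Fin K → α := fun u =>
    (X u.1).get ⟨finProdFinEquiv (u.2.1, u.2.2), by
      rw [(hXX' u.1).1]; exact (finProdFinEquiv (u.2.1, u.2.2)).2⟩ with hY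
  have hYmem : ∀ u, Y u ∈ X u.1 := fun u => List.get_mem _ _
  have hdisj : ∀ g g' : Fin (3 + 1), g ≠ g' → ∀ x ∈ X g, x ∉ X g' := by
    intro g g' hgg x hx hx'
    rcases lt_or_gt_of_ne hgg with h | h
    · exact ((hXX' g').2.2.2.2 g h).1 x hx' hx
    · exact ((hXX' g).2.2.2.2 g' h).1 x hx hx'
  have hYinj : Function.Injective Y := by
    rintro ⟨g, s, i⟩ ⟨g', s', i'⟩ h
    have hg : g = g' := by
      by_contra hne
      have h1 := hYmem (g, s, i)
      rw [h] at h1
      exact hdisj g g' hne _ h1 (hYmem (g', s', i'))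
    subst hg
    have h2 := (List.nodup_iff_injective_get.1 (hXX' g).2.1) h
    have h3 : finProdFinEquiv (s, i) = finProdFinEquiv (s', i') := by
      apply Fin.ext
      have := congrArg Fin.val h2
      exact this
    have h4 := finProdFinEquiv.injective h3
    simp only [Prod.mk.injEq] at h4
    rw [h4.1, h4.2]
  obtain ⟨s, hs, B, hB, hBs⟩ := hX Y hYinj (fun u => (hXX' u.1).2.2.1 _ (hYmem u))
  haveI : Nonempty (Fin K) := by
    obtain ⟨b, hb⟩ := card_pos.1 (by omega : 0 < B.card)
    exact ⟨(hBs b hb).choose⟩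
  choose! ι hι using hBs
  obtain ⟨g, g', hgg, hk, hk'⟩ := two_groups B hB
  have hsub : ∀ g : Fin (3 + 1), k ≤ (univ.filter (fun j => (g, j) ∈ B)).card →
      ∃ P ⊆ (X g).toFinset, P ⊆ s ∧ P.card = k := by
    intro g hk
    have h1 : ((univ.filter (fun j => (g, j) ∈ B)).image (fun j => Y (g, j, ι (g, j)))).card =
        (univ.filter (fun j => (g, j) ∈ B)).card := by
      apply card_image_of_injOn
      intro j _ j' _ h
      have := hYinj h
      simp only [Prod.mk.injEq] at this
      exact this.2.1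
    rw [← h1] at hk
    obtain ⟨P, hP, hPc⟩ := exists_subset_card_eq hk
    refine ⟨P, ?_, ?_, hPc⟩
    · intro x hx
      obtain ⟨j, hj, rfl⟩ := mem_image.1 (hP hx)
      rw [List.mem_toFinset]
      exact hYmem _
    · intro x hx
      obtain ⟨j, hj, rfl⟩ := mem_image.1 (hP hx)
      exact hι _ (mem_filter.1 hj).2
  obtain ⟨P, hP1, hP2, hP3⟩ := hsub g hk
  obtain ⟨P', hP1', hP2', hP3'⟩ := hsub g' hk'
  rcases lt_or_gt_of_ne hgg with h | h
  · exact ((hXX' g').2.2.2.2 g h).2 P' hP1' P hP1 hP3' hP3 (hh _ _ (union_subset hP2 hP2') hs)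
  · exact ((hXX' g).2.2.2.2 g' h).2 P hP1 P' hP1' hP3 hP3' (hh _ _ (union_subset hP2' hP2) hs)

end Pool.Agent.Run7.h166.GS
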