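import Mathlib
import Pool.Agent.Run7.h166.GS.Ab

/-!
# One sequence through a subgroup of index at most three

`G` is a group, `good` a hereditary property of finite subsets which is invariant under the translations
`x ↦ x z`, and `U` a nonprincipal ultrafilter such that of any four translates of `U` two are connected on
each level. Then there is a subgroup `T` of index at most three all of whose elements can be arranged in one
sequence such that, for every `k`, all but finitely many windows of `k` successive terms are good.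
-/

set_option autoImplicit false

namespace Pool.Agent.Run7.h166.GS

open Filter Finset
open Pool.Agent.Run7.h166.TS (Win)

variable {α : Type} [DecidableEq α]

theorem win_of_subset {good : Finset α → Prop} (hh : ∀ s t : Finset α, s ⊆ t → good t → good s) {k : ℕ}
    {l : List α} {s : Finset α} (h : good s) (hl : l.toFinset ⊆ s) : Win good k l :=
  Win.of_good hh (hh _ _ hl h)

/-- windows in `l ++ X`, if all `k`-subsets of `X` are good together with `l` -/
theorem win_append {good : Finset α → Prop} (hh : ∀ s t : Finset α, s ⊆ t → good t → good s) {k : ℕ}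
    {l X : List α} (hX : X.Nodup) (hk : k ≤ X.length)
    (h : ∀ P ⊆ X.toFinset, P.card = k → good (l.toFinset ∪ P)) : Win good k (l ++ X) := by
  intro w hw hwk
  have h1 : (w.toFinset ∩ X.toFinset).card ≤ k :=
    (card_le_card inter_subset_left).trans ((List.toFinset_card_le w).trans hwk)
  have h2 : k ≤ X.toFinset.card := by rwa [List.toFinset_card_of_nodup hX]
  obtain ⟨P, hP1, hP2, hP3⟩ := exists_subsuperset_card_eq (inter_subset_right) h1 h2
  refine hh _ _ ?_ (h P hP2 hP3)
  intro x hx
  have h3 := hw.subset (List.mem_toFinset.1 hx)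
  rcases List.mem_append.1 h3 with h4 | h4
  · exact mem_union_left _ (List.mem_toFinset.2 h4)
  · exact mem_union_right _ (hP1 (mem_inter.2 ⟨hx, List.mem_toFinset.2 h4⟩))

/-- translates of ultrafilters -/
theorem ab_map {P : Finset α → Prop} {U : Ultrafilter α} {τ : α → α} :
    ∀ (k : ℕ) (s : Finset α), Ab P (U.map τ) k (s.image τ) ↔ Ab (fun s => P (s.image τ)) U k s := by
  intro k
  induction k with
  | zero => intro s; exact Iff.rfl
  | succ k ih =>
    intro s
    show (∀ᶠ x in ((U.map τ : Ultrafilter α) : Filter α), Ab P (U.map τ) k (insert x (s.image τ))) ↔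
      ∀ᶠ x in (U : Filter α), Ab (fun s => P (s.image τ)) U k (insert x s)
    rw [Ultrafilter.coe_map, Filter.eventually_map]
    refine Filter.eventually_congr (Filter.Eventually.of_forall fun x => ?_)
    rw [← image_insert]
    exact ih _

variable {G : Type} [Group G] [DecidableEq G]

/-- the translate `U z` -/
noncomputable def tr (U : Ultrafilter G) (z : G) : Ultrafilter G := U.map (fun x => x * z)

theorem tr_tr (U : Ultrafilter G) (z w : G) : tr (tr U z) w = tr U (z * w) := by
  unfold tr
  rw [Ultrafilter.map_map]
  congr 1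
  funext x
  simp [mul_assoc]

theorem tr_one (U : Ultrafilter G) : tr U 1 = U := by
  unfold tr
  have : (fun x : G => x * 1) = id := by funext x; simp
  rw [this, Ultrafilter.map_id]

theorem mem_tr {U : Ultrafilter G} {z : G} {C : Set G} (h : ∀ᶠ x in (U : Filter G), x * z ∈ C) :
    C ∈ tr U z := by
  unfold tr
  rw [Ultrafilter.mem_map]
  exact h

theorem tr_np {U : Ultrafilter G} (hU : ∀ E : Finset G, ∀ᶠ x in (U : Filter G), x ∉ E) (z : G) :
    ∀ E : Finset G, ∀ᶠ x in (tr U z : Filter G), x ∉ E := by
  intro E
  refine mem_tr ?_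
  refine (hU (E.image (fun y => y * z⁻¹))).mono fun x hx h => hx ?_
  exact mem_image.2 ⟨x * z, h, by simp⟩

section inv

variable {good : Finset G → Prop} (hinv : ∀ (z : G) (s : Finset G), good s → good (s.image (fun x => x * z)))
include hinv

theorem inv_iff (z : G) (s : Finset G) : good (s.image (fun x => x * z)) ↔ good s := by
  constructor
  · intro h
    have h1 := hinv z⁻¹ _ h
    rw [image_image] at h1
    have e : ((fun x : G => x * z⁻¹) ∘ fun x => x * z) = id := by funext x; simp
    rwa [e, image_id] at h1
  · exact hinv z s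

theorem ab_tr (U : Ultrafilter G) (z : G) (k : ℕ) (s : Finset G) :
    Ab good (tr U z) k (s.image (fun x => x * z)) ↔ Ab good U k s := by
  unfold tr
  rw [ab_map]
  exact ab_congr (fun s => inv_iff hinv z s) k s

theorem dir_tr (U W : Ultrafilter G) (z : G) (k : ℕ) :
    Dir good k (tr U z) (tr W z) ↔ Dir good k U W := by
  unfold Dir
  have h := ab_map (P := Ab good (tr W z) k) (U := U) (τ := fun x : G => x * z) k ∅
  rw [image_empty] at h
  have e : tr U z = U.map (fun x => x * z) := rfl
  rw [e, h]
  exact ab_congr (fun s => ab_tr hinv W z k s) k ∅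

end inv

/-- from the end `L` of a walk at the place `z` one can walk to the place `z'` in `T` -/
def Conn (good : Finset G → Prop) (U : Ultrafilter G) (T : Set G) (k : ℕ) (z z' : G) : Prop :=
  ∀ L : List G, L.length = k → Ab good (tr U z) k L.toFinset → ∀ E : Finset G,
    ∃ M L' : List G, (M ++ L').Nodup ∧ (∀ y ∈ M ++ L', y ∈ T ∧ y ∉ E) ∧ L'.length = k ∧
      Ab good (tr U z') k L'.toFinset ∧ Win good k (L ++ (M ++ L'))

theorem Conn.trans {good : Finset G → Prop} {U : Ultrafilter G} {T : Set G} {k : ℕ} {z z' z'' : G}
    (h1 : Conn good U T k z z') (h2 : Conn good U T k z' z'') : Conn good U T k z z'' := by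
  intro L hL hAb E
  obtain ⟨M, L', a1, a2, a3, a4, a5⟩ := h1 L hL hAb E
  obtain ⟨M', L'', b1, b2, b3, b4, b5⟩ := h2 L' a3 a4 (E ∪ (M ++ L').toFinset)
  refine ⟨M ++ L' ++ M', L'', ?_, ?_, b3, b4, ?_⟩
  · rw [List.append_assoc, List.nodup_append']
    refine ⟨a1, b1, ?_⟩
    intro y hy hy'
    exact (b2 y hy').2 (mem_union_right _ (List.mem_toFinset.2 hy))
  · intro y hy
    rw [List.append_assoc] at hy
    rcases List.mem_append.1 hy with h | h
    · exact a2 y h
    · exact ⟨(b2 y h).1, fun h' => (b2 y h).2 (mem_union_left _ h')⟩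
  · have := Win.glue (x := L ++ M) (c := L') (y := M' ++ L'') (by rwa [List.append_assoc]) b5 a3.ge
    simpa [List.append_assoc] using this

variable {good : Finset G → Prop} (hh : ∀ s t : Finset G, s ⊆ t → good t → good s)
  {U : Ultrafilter G} (hU : ∀ E : Finset G, ∀ᶠ x in (U : Filter G), x ∉ E)

include hh hU in
/-- a direct connection, in the order of the choice -/
theorem conn_fwd {T : Set G} {k : ℕ} {z z' : G} (hz : T ∈ tr U z) (hz' : T ∈ tr U z')
    (hd : Dir good k (tr U z) (tr U z')) (hd' : Dir good k (tr U z') (tr U z')) :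
    Conn good U T k z z' := by
  intro L hL hAb E
  obtain ⟨X, x1, x2, x3, x4⟩ := gen_list (tr U z) (tr_np hU z) T hz k
    [(good, L.toFinset, k), (Ab good (tr U z') k, ∅, k)] (by
      intro r hr
      simp only [List.mem_cons, List.not_mem_nil, or_false] at hr
      rcases hr with rfl | rfl
      · exact hAb
      · exact hd) E
  have hXc : X.toFinset.card = k := by rw [List.toFinset_card_of_nodup x2, x1]
  have hg1 := x4 (good, L.toFinset, k) (by simp) _ subset_rfl hXc
  have hg2 := x4 (Ab good (tr U z') k, ∅, k) (by simp) _ subset_rfl hXc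
  obtain ⟨Y, y1, y2, y3, y4⟩ := gen_list (tr U z') (tr_np hU z') T hz' k
    [(good, X.toFinset, k), (Ab good (tr U z') k, ∅, k)] (by
      intro r hr
      simp only [List.mem_cons, List.not_mem_nil, or_false] at hr
      rcases hr with rfl | rfl
      · simpa using hg2
      · exact hd') (E ∪ X.toFinset)
  have hYc : Y.toFinset.card = k := by rw [List.toFinset_card_of_nodup y2, y1]
  have hg3 := y4 (good, X.toFinset, k) (by simp) _ subset_rfl hYc
  have hg4 := y4 (Ab good (tr U z') k, ∅, k) (by simp) _ subset_rfl hYc
  refine ⟨X, Y, ?_, ?_, y1, by simpa using hg4, ?_⟩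
  · rw [List.nodup_append']
    exact ⟨x2, y2, fun y hy hy' => (y3 y hy').2 (mem_union_right _ (List.mem_toFinset.2 hy))⟩
  · intro y hy
    rcases List.mem_append.1 hy with h | h
    · exact x3 y h
    · exact ⟨(y3 y h).1, fun h' => (y3 y h).2 (mem_union_left _ h')⟩
  · rw [← List.append_assoc]
    refine Win.glue (win_of_subset hh hg1 ?_) (win_of_subset hh hg3 ?_) x1.ge
    · rw [List.toFinset_append]
    · rw [List.toFinset_append]

include hh hU in
/-- a direct connection, against the order of the choice -/
theorem conn_bwd {T : Set G} {k : ℕ} {z z' : G} (hz : T ∈ tr U z) (hz' : T ∈ tr U z')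
    (hd : Dir good k (tr U z') (tr U z)) (hd' : Dir good k (tr U z') (tr U z')) :
    Conn good U T k z z' := by
  intro L hL hAb E
  obtain ⟨Y, y1, y2, y3, y4⟩ := gen_list (tr U z') (tr_np hU z') T hz' k
    [(Ab good (tr U z) k, ∅, k), (Ab good (tr U z') k, ∅, k)] (by
      intro r hr
      simp only [List.mem_cons, List.not_mem_nil, or_false] at hr
      rcases hr with rfl | rfl
      · exact hd
      · exact hd') E
  have hYc : Y.toFinset.card = k := by rw [List.toFinset_card_of_nodup y2, y1]
  have hg1 := y4 (Ab good (tr U z) k, ∅, k) (by simp) _ subset_rfl hYc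
  have hg2 := y4 (Ab good (tr U z') k, ∅, k) (by simp) _ subset_rfl hYc
  obtain ⟨X, x1, x2, x3, x4⟩ := gen_list (tr U z) (tr_np hU z) T hz k
    [(good, L.toFinset, k), (good, Y.toFinset, k)] (by
      intro r hr
      simp only [List.mem_cons, List.not_mem_nil, or_false] at hr
      rcases hr with rfl | rfl
      · exact hAb
      · simpa using hg1) (E ∪ Y.toFinset)
  have hXc : X.toFinset.card = k := by rw [List.toFinset_card_of_nodup x2, x1]
  have hg3 := x4 (good, L.toFinset, k) (by simp) _ subset_rfl hXc
  have hg4 := x4 (good, Y.toFinset, k) (by simp) _ subset_rfl hXc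
  refine ⟨X, Y, ?_, ?_, y1, by simpa using hg2, ?_⟩
  · rw [List.nodup_append']
    exact ⟨x2, y2, fun y hy hy' => (x3 y hy).2 (mem_union_right _ (List.mem_toFinset.2 hy'))⟩
  · intro y hy
    rcases List.mem_append.1 hy with h | h
    · exact ⟨(x3 y h).1, fun h' => (x3 y h).2 (mem_union_left _ h')⟩
    · exact y3 y h
  · rw [← List.append_assoc]
    refine Win.glue (win_of_subset hh hg3 ?_) (win_of_subset hh hg4 ?_) x1.ge
    · rw [List.toFinset_append]
    · rw [List.toFinset_append, union_comm]

end Pool.Agent.Run7.h166.GS
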