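import Mathlib
import Pool.Agent.Run7.h166.GS.Grp

/-!
# One sequence through a subgroup of index at most three: the subgroup and the sequence
-/

set_option autoImplicit false

namespace Pool.Agent.Run7.h166.GS

open Filter Finset
open Pool.Agent.Run7.h166.TS (Win)

variable {G : Type} [Group G] [DecidableEq G]

theorem dir_mono {good : Finset G → Prop} (hh : ∀ s t : Finset G, s ⊆ t → good t → good s) {k l : ℕ}
    (hkl : k ≤ l) {W W' : Ultrafilter G} (h : Dir good l W W') : Dir good k W W' := by
  unfold Dir at *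
  have h1 : Ab (Ab good W' k) W l ∅ := ab_mono (fun s hs => ab_le hh hkl s hs) l ∅ h
  exact ab_le (fun s t hst ht => ab_hered hh k s t hst ht) hkl _ h1

omit [DecidableEq G] in
theorem index_le (T : Subgroup G)
    (h : ∀ z : Fin (3 + 1) → G, ∃ g g' : Fin (3 + 1), g < g' ∧ z g * (z g')⁻¹ ∈ T) :
    T.index ≠ 0 ∧ T.index ≤ 3 := by
  classical
  by_contra hcon
  have h4 : ∃ f : Fin (3 + 1) → G ⧸ T, Function.Injective f := by
    by_cases hfin : Finite (G ⧸ T)
    · haveI := Fintype.ofFinite (G ⧸ T)
      have h1 : T.index ≠ 0 := by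
        rw [Subgroup.index_eq_card]
        exact Nat.card_pos.ne'
      have h2 : 3 < T.index := by
        by_contra h3
        exact hcon ⟨h1, not_lt.1 h3⟩
      rw [Subgroup.index_eq_card, Nat.card_eq_fintype_card] at h2
      have h5 : Fintype.card (Fin (3 + 1)) ≤ Fintype.card (G ⧸ T) := by
        rw [Fintype.card_fin]; omega
      obtain ⟨e⟩ := Function.Embedding.nonempty_of_card_le h5
      exact ⟨e, e.injective⟩
    · haveI : Infinite (G ⧸ T) := not_finite_iff_infinite.1 hfin
      exact ⟨fun i => Infinite.natEmbedding (G ⧸ T) i, fun i j hij =>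
        Fin.ext ((Infinite.natEmbedding (G ⧸ T)).injective hij)⟩
  obtain ⟨f, hf⟩ := h4
  obtain ⟨g, g', hg, hT⟩ := h (fun g => (Quotient.out (f g))⁻¹)
  have h1 : (QuotientGroup.mk (Quotient.out (f g)) : G ⧸ T) = QuotientGroup.mk (Quotient.out (f g')) := by
    rw [QuotientGroup.eq]
    simpa using hT
  have h2 : f g = f g' := by
    have e1 : (QuotientGroup.mk (Quotient.out (f g)) : G ⧸ T) = f g := Quotient.out_eq' _
    have e2 : (QuotientGroup.mk (Quotient.out (f g')) : G ⧸ T) = f g' := Quotient.out_eq' _
    rw [← e1, ← e2, h1]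
  exact absurd (hf h2) (ne_of_lt hg)

/-- the translations which are direct connections on the level `k` -/
def DD (good : Finset G → Prop) (U : Ultrafilter G) (k : ℕ) : Set G :=
  {w | Dir good k (tr U w) U ∨ Dir good k U (tr U w)}

/-- the subgroup of the level `k` -/
def TT (good : Finset G → Prop) (U : Ultrafilter G) (k : ℕ) : Subgroup G := Subgroup.closure (DD good U k)

theorem TT_anti {good : Finset G → Prop} (hh : ∀ s t : Finset G, s ⊆ t → good t → good s)
    {U : Ultrafilter G} {k l : ℕ} (hkl : k ≤ l) : TT good U l ≤ TT good U k := by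
  refine Subgroup.closure_mono ?_
  intro w hw
  rcases hw with h | h
  · exact Or.inl (dir_mono hh hkl h)
  · exact Or.inr (dir_mono hh hkl h)

theorem TT_index {good : Finset G → Prop}
    (hinv : ∀ (z : G) (s : Finset G), good s → good (s.image (fun x => x * z))) {U : Ultrafilter G}
    (hD : ∀ (k : ℕ) (z : Fin (3 + 1) → G), ∃ g g' : Fin (3 + 1), g < g' ∧
      Dir good k (tr U (z g)) (tr U (z g'))) (k : ℕ) :
    (TT good U k).index ≠ 0 ∧ (TT good U k).index ≤ 3 := by
  refine index_le _ fun z => ?_
  obtain ⟨g, g', hg, h⟩ := hD k z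
  refine ⟨g, g', hg, Subgroup.subset_closure (Or.inl ?_)⟩
  rw [← dir_tr hinv _ _ (z g'), tr_tr]
  simpa using h

theorem stab {good : Finset G → Prop} (hh : ∀ s t : Finset G, s ⊆ t → good t → good s)
    (hinv : ∀ (z : G) (s : Finset G), good s → good (s.image (fun x => x * z))) {U : Ultrafilter G}
    (hD : ∀ (k : ℕ) (z : Fin (3 + 1) → G), ∃ g g' : Fin (3 + 1), g < g' ∧
      Dir good k (tr U (z g)) (tr U (z g'))) :
    ∃ k₀, ∀ k, k₀ ≤ k → TT good U k = TT good U k₀ := by
  have hne : (Set.range (fun k => (TT good U k).index)).Nonempty := Set.range_nonempty _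
  have hbd : BddAbove (Set.range (fun k => (TT good U k).index)) := by
    refine ⟨3, ?_⟩
    rintro _ ⟨k, rfl⟩
    exact (TT_index hinv hD k).2
  obtain ⟨k₀, hk₀⟩ := Nat.sSup_mem hne hbd
  refine ⟨k₀, fun k hk => ?_⟩
  have h1 : (TT good U k).index ≤ (TT good U k₀).index := by
    dsimp only at hk₀
    rw [hk₀]
    exact le_csSup hbd ⟨k, rfl⟩
  have h2 := TT_anti hh (U := U) hk
  have h3 := Subgroup.relIndex_mul_index h2
  have h4 := (TT_index hinv hD k).1
  have h5 := (TT_index hinv hD k₀).1
  have h6 : (TT good U k).relIndex (TT good U k₀) = 1 := by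
    have h7 : (TT good U k).relIndex (TT good U k₀) ≠ 0 := by
      intro h0
      rw [h0, zero_mul] at h3
      exact h4 h3.symm
    by_contra h8
    have h9 : 2 ≤ (TT good U k).relIndex (TT good U k₀) := by omega
    have h10 : 0 < (TT good U k₀).index := Nat.pos_of_ne_zero h5
    nlinarith
  exact le_antisymm h2 (Subgroup.relIndex_eq_one.1 h6)

section step

variable {good : Finset G → Prop} (hh : ∀ s t : Finset G, s ⊆ t → good t → good s)
  (hinv : ∀ (z : G) (s : Finset G), good s → good (s.image (fun x => x * z)))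
  {U : Ultrafilter G} (hU : ∀ E : Finset G, ∀ᶠ x in (U : Filter G), x ∉ E)
  (hcl : ∀ (m : ℕ) (z : G), Dir good m (tr U z) (tr U z))
  (T : Subgroup G) [T.Normal] (c : G ⧸ T) (hc : ∀ᶠ x in (U : Filter G), (QuotientGroup.mk x : G ⧸ T) = c)

include hc in
theorem lives {z : G} (hz : c * (z : G ⧸ T) = 1) : (T : Set G) ∈ tr U z := by
  refine mem_tr (hc.mono fun x hx => ?_)
  have h1 : ((x * z : G) : G ⧸ T) = 1 := by
    rw [QuotientGroup.mk_mul, hx, hz]
  exact (QuotientGroup.eq_one_iff _).1 h1

include hh hinv hU hcl hc in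
/-- connections in the closure -/
theorem conn_closure {k : ℕ} (hk : TT good U k = T) {w : G} (hw : w ∈ TT good U k) :
    ∀ z : G, c * (z : G ⧸ T) = 1 → Conn good U T k z (w * z) ∧ Conn good U T k z (w⁻¹ * z) := by
  have hmem : ∀ w ∈ TT good U k, ∀ z : G, c * (z : G ⧸ T) = 1 → c * ((w * z : G) : G ⧸ T) = 1 := by
    intro w hw z hz
    rw [hk] at hw
    rw [QuotientGroup.mk_mul, (QuotientGroup.eq_one_iff w).2 hw, one_mul, hz]
  refine Subgroup.closure_induction (p := fun w _ => ∀ z : G, c * (z : G ⧸ T) = 1 →
    Conn good U T k z (w * z) ∧ Conn good U T k z (w⁻¹ * z)) ?_ ?_ ?_ ?_ hw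
  · intro w hw z hz
    have hwT : w ∈ TT good U k := Subgroup.subset_closure hw
    have hz1 := hmem w hwT z hz
    have hz2 := hmem w⁻¹ (inv_mem hwT) z hz
    have l0 := lives T c hc hz
    have l1 := lives T c hc hz1
    have l2 := lives T c hc hz2
    rcases hw with h | h
    · have h1 : Dir good k (tr U (w * z)) (tr U z) := by
        rw [← tr_tr, dir_tr hinv]
        exact h
      have h2 : Dir good k (tr U z) (tr U (w⁻¹ * z)) := by
        have h3 := (dir_tr hinv _ _ (w⁻¹ * z) k).2 h
        rw [tr_tr] at h3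
        simpa using h3
      exact ⟨conn_bwd hh hU l0 l1 h1 (hcl k _), conn_fwd hh hU l0 l2 h2 (hcl k _)⟩
    · have h1 : Dir good k (tr U z) (tr U (w * z)) := by
        rw [← tr_tr, dir_tr hinv]
        exact h
      have h2 : Dir good k (tr U (w⁻¹ * z)) (tr U z) := by
        have h3 := (dir_tr hinv _ _ (w⁻¹ * z) k).2 h
        rw [tr_tr] at h3
        simpa using h3
      exact ⟨conn_fwd hh hU l0 l1 h1 (hcl k _), conn_bwd hh hU l0 l2 h2 (hcl k _)⟩
  · intro z hz
    have l0 := lives T c hc hz
    rw [one_mul, inv_one, one_mul]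
    exact ⟨conn_fwd hh hU l0 l0 (hcl k _) (hcl k _), conn_fwd hh hU l0 l0 (hcl k _) (hcl k _)⟩
  · intro x y hx hy ihx ihy z hz
    constructor
    · rw [mul_assoc]
      exact (ihy z hz).1.trans (ihx (y * z) (hmem y hy z hz)).1
    · rw [mul_inv_rev, mul_assoc]
      exact (ihx z hz).2.trans (ihy (x⁻¹ * z) (hmem _ (inv_mem hx) z hz)).2
  · intro x hx ih z hz
    rw [inv_inv]
    exact ⟨(ih z hz).2, (ih z hz).1⟩

include hh hinv hU hcl hc in
theorem conn_all {k : ℕ} (hk : TT good U k = T) {z z' : G} (hz : c * (z : G ⧸ T) = 1)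
    (hz' : c * (z' : G ⧸ T) = 1) : Conn good U T k z z' := by
  have h1 : z' * z⁻¹ ∈ TT good U k := by
    rw [hk, ← QuotientGroup.eq_one_iff]
    have h2 : (z : G ⧸ T) = (z' : G ⧸ T) := mul_left_cancel (hz.trans hz'.symm)
    rw [QuotientGroup.mk_mul, QuotientGroup.mk_inv, ← h2, mul_inv_cancel]
  have h3 := (conn_closure hh hinv hU hcl T c hc hk h1 z hz).1
  simpa using h3

include hh hinv hU hcl hc in
/-- **one step of the construction** -/
theorem step {k : ℕ} (hk : TT good U k = T) {L : List G} {z : G} (hz : c * (z : G ⧸ T) = 1)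
    (hL : L.length = k) (hAb : Ab good (tr U z) k L.toFinset) (E : Finset G) {y : G} (hy : y ∈ T) :
    ∃ (M L' : List G) (z' : G), c * (z' : G ⧸ T) = 1 ∧ (M ++ L').Nodup ∧
      (∀ a ∈ M ++ L', a ∈ T ∧ a ∉ E) ∧ L'.length = k + 1 ∧ Ab good (tr U z') (k + 1) L'.toFinset ∧
      Win good k (L ++ (M ++ L')) ∧ (y ∈ E ∨ y ∈ M ++ L') := by
  by_cases hyE : y ∈ E
  · obtain ⟨X, x1, x2, x3, x4⟩ := gen_list (tr U z) (tr_np hU z) T (lives T c hc hz) (k + 1)
      [(good, L.toFinset, k), (Ab good (tr U z) (k + 1), ∅, k + 1)] (by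
        intro r hr
        simp only [List.mem_cons, List.not_mem_nil, or_false] at hr
        rcases hr with rfl | rfl
        · exact hAb
        · exact hcl (k + 1) z) E
    have h2 := x4 (Ab good (tr U z) (k + 1), ∅, k + 1) (by simp) _ subset_rfl (by
      rw [List.toFinset_card_of_nodup x2, x1])
    refine ⟨[], X, z, hz, by simpa using x2, ?_, x1, by simpa using h2, ?_, Or.inl hyE⟩
    · intro a ha
      exact x3 a (by simpa using ha)
    · rw [List.nil_append]
      refine win_append hh x2 (by omega) ?_
      exact x4 (good, L.toFinset, k) (by simp)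
  · -- a place which absorbs `y`
    have h0 : Ab good U (k + k + 1) ∅ := by
      have h1 := hcl (k + k + 1) 1
      rw [tr_one] at h1
      unfold Dir at h1
      rw [ab_add] at h1
      exact ab_le hh (by omega) _ h1
    obtain ⟨x₀, hx1, hx2⟩ := ((show ∀ᶠ x in (U : Filter G), Ab good U (k + k) (insert x ∅) from h0).and
      hc).exists
    set z' : G := x₀⁻¹ * y with hz'
    have hzz : c * (z' : G ⧸ T) = 1 := by
      rw [hz', QuotientGroup.mk_mul, QuotientGroup.mk_inv, hx2, (QuotientGroup.eq_one_iff y).2 hy]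
      simp
    have hy1 : Ab good (tr U z') (k + k) {y} := by
      have h1 := (ab_tr hinv U z' (k + k) (insert x₀ ∅)).2 hx1
      have e : (insert x₀ (∅ : Finset G)).image (fun x => x * z') = {y} := by
        rw [insert_empty_eq, image_singleton, hz']
        simp
      rwa [e] at h1
    obtain ⟨M₁, L₁, a1, a2, a3, a4, a5⟩ := conn_all hh hinv hU hcl T c hc hk hz hzz L hL hAb (insert y E)
    have lz := lives T c hc hzz
    obtain ⟨X, x1, x2, x3, x4⟩ := gen_list (tr U z') (tr_np hU z') T lz k
      [(good, L₁.toFinset, k), (Ab good (tr U z') k, {y}, k)] (by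
        intro r hr
        simp only [List.mem_cons, List.not_mem_nil, or_false] at hr
        rcases hr with rfl | rfl
        · exact a4
        · exact (ab_add _ _ _ _ _).2 hy1) (insert y E ∪ (M₁ ++ L₁).toFinset)
    have hXc : X.toFinset.card = k := by rw [List.toFinset_card_of_nodup x2, x1]
    have g1 := x4 (good, L₁.toFinset, k) (by simp) _ subset_rfl hXc
    have g2 := x4 (Ab good (tr U z') k, {y}, k) (by simp) _ subset_rfl hXc
    obtain ⟨Y, y1, y2, y3, y4⟩ := gen_list (tr U z') (tr_np hU z') T lz (k + 1)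
      [(good, {y} ∪ X.toFinset, k), (Ab good (tr U z') (k + 1), ∅, k + 1)] (by
        intro r hr
        simp only [List.mem_cons, List.not_mem_nil, or_false] at hr
        rcases hr with rfl | rfl
        · exact g2
        · exact hcl (k + 1) z') (insert y E ∪ (M₁ ++ L₁).toFinset ∪ X.toFinset)
    have g3 := y4 (Ab good (tr U z') (k + 1), ∅, k + 1) (by simp) _ subset_rfl (by
      rw [List.toFinset_card_of_nodup y2, y1])
    refine ⟨M₁ ++ L₁ ++ (X ++ [y]), Y, z', hzz, ?_, ?_, y1, by simpa using g3, ?_, Or.inr (by simp)⟩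
    · have n1 : (X ++ [y]).Nodup := by
        rw [List.nodup_append']
        refine ⟨x2, List.nodup_singleton _, ?_⟩
        intro a ha ha'
        rw [List.mem_singleton] at ha'
        subst ha'
        exact (x3 _ ha).2 (mem_union_left _ (mem_insert_self _ _))
      have n2 : (M₁ ++ L₁ ++ (X ++ [y])).Nodup := by
        rw [List.nodup_append']
        refine ⟨a1, n1, ?_⟩
        intro a ha ha'
        rcases List.mem_append.1 ha' with h | h
        · exact (x3 a h).2 (mem_union_right _ (List.mem_toFinset.2 ha))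
        · rw [List.mem_singleton] at h
          subst h
          exact (a2 _ ha).2 (mem_insert_self _ _)
      rw [List.nodup_append']
      refine ⟨n2, y2, ?_⟩
      intro a ha ha'
      refine (y3 a ha').2 ?_
      rcases List.mem_append.1 ha with h | h
      · exact mem_union_left _ (mem_union_right _ (List.mem_toFinset.2 h))
      · rcases List.mem_append.1 h with h | h
        · exact mem_union_right _ (List.mem_toFinset.2 h)
        · rw [List.mem_singleton] at h
          subst h
          exact mem_union_left _ (mem_union_left _ (mem_insert_self _ _))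
    · intro a ha
      rcases List.mem_append.1 ha with h | h
      · rcases List.mem_append.1 h with h | h
        · exact ⟨(a2 a h).1, fun h' => (a2 a h).2 (mem_insert_of_mem h')⟩
        · rcases List.mem_append.1 h with h | h
          · exact ⟨(x3 a h).1, fun h' => (x3 a h).2 (mem_union_left _ (mem_insert_of_mem h'))⟩
          · rw [List.mem_singleton] at h
            subst h
            exact ⟨hy, hyE⟩
      · exact ⟨(y3 a h).1, fun h' => (y3 a h).2 (mem_union_left _ (mem_union_left _
          (mem_insert_of_mem h')))⟩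
    · have w1 : Win good k (L₁ ++ X) := win_of_subset hh g1 (by rw [List.toFinset_append])
      have w2 : Win good k (X ++ ([y] ++ Y)) := by
        rw [← List.append_assoc]
        refine win_append hh y2 (by omega) ?_
        intro P hP hPc
        have h3 := y4 (good, {y} ∪ X.toFinset, k) (by simp) P hP hPc
        refine hh _ _ ?_ h3
        refine union_subset_union ?_ subset_rfl
        intro a ha
        rw [List.mem_toFinset] at ha
        rcases List.mem_append.1 ha with h | h
        · exact mem_union_right _ (List.mem_toFinset.2 h)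
        · rw [List.mem_singleton] at h
          exact mem_union_left _ (mem_singleton.2 h)
      have w3 : Win good k (L ++ M₁ ++ L₁ ++ X) := Win.glue (by rwa [List.append_assoc]) w1 a3.ge
      have w4 := Win.glue w3 w2 x1.ge
      simpa [List.append_assoc] using w4

end step

end Pool.Agent.Run7.h166.GS
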