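import Mathlib
import Pool.Agent.Run7.h166.GS.Seq

/-!
# One sequence through a subgroup of index at most three: the theorem
-/

set_option autoImplicit false

namespace Pool.Agent.Run7.h166.GS

open Filter Finset
open Pool.Agent.Run7.h166.TS (Win)

theorem seq_of_chain {α : Type} [Inhabited α] (w : ℕ → List α)
    (hw : ∀ t, ∃ e : List α, e ≠ [] ∧ w (t + 1) = w t ++ e) :
    ∃ x : ℕ → α, (∀ t i (h : i < (w t).length), (w t)[i] = x i) ∧ ∀ i, ∃ t, i < (w t).length := by
  have hlen : ∀ t, t ≤ (w t).length := by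
    intro t
    induction t with
    | zero => exact Nat.zero_le _
    | succ t ih =>
      obtain ⟨e, he, h⟩ := hw t
      rw [h, List.length_append]
      have := List.length_pos_iff.2 he
      omega
  have hpre : ∀ s t, s ≤ t → w s <+: w t := by
    intro s t hst
    induction hst with
    | refl => exact List.prefix_rfl
    | step _ ih =>
      obtain ⟨e, -, h⟩ := hw _
      rw [h]
      exact ih.trans (List.prefix_append _ _)
  have hi : ∀ i, i < (w (i + 1)).length := fun i => hlen (i + 1)
  refine ⟨fun i => (w (i + 1))[i]'(hi i), fun t i h => ?_, fun i => ⟨i + 1, hi i⟩⟩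
  show (w t)[i] = (w (i + 1))[i]'(hi i)
  rw [(hpre t (max t (i + 1)) (le_max_left _ _)).getElem h,
    (hpre (i + 1) (max t (i + 1)) (le_max_right _ _)).getElem (hi i)]

variable {G : Type} [Group G] [DecidableEq G]

/-- **One sequence.** -/
theorem one_seq [Countable G] {good : Finset G → Prop}
    (hh : ∀ s t : Finset G, s ⊆ t → good t → good s)
    (hinv : ∀ (z : G) (s : Finset G), good s → good (s.image (fun x => x * z)))
    {U : Ultrafilter G} (hU : ∀ E : Finset G, ∀ᶠ x in (U : Filter G), x ∉ E)
    (hD : ∀ (k : ℕ) (z : Fin (3 + 1) → G), ∃ g g' : Fin (3 + 1), g < g' ∧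
      Dir good k (tr U (z g)) (tr U (z g')))
    (hN : ∀ T : Subgroup G, T.index ≠ 0 → T.index ≤ 3 → T.Normal) :
    ∃ T : Subgroup G, T.index ≠ 0 ∧ T.index ≤ 3 ∧ ∃ x : ℕ → G, Function.Injective x ∧
      Set.range x = T ∧ ∀ k, ∃ i₀, ∀ i, i₀ ≤ i → good ((range k).image (fun j => x (i + j))) := by
  classical
  have hcl : ∀ (m : ℕ) (z : G), Dir good m (tr U z) (tr U z) := by
    intro m z
    obtain ⟨g, g', -, h⟩ := hD m (fun _ => z)
    exact h
  obtain ⟨k₀, hk₀⟩ := stab hh hinv hD
  set T := TT good U k₀ with hT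
  obtain ⟨hi1, hi2⟩ := TT_index hinv hD k₀
  refine ⟨T, hi1, hi2, ?_⟩
  haveI : T.Normal := hN T hi1 hi2
  haveI : Finite (G ⧸ T) := by
    rw [Subgroup.index_eq_card] at hi1
    exact Nat.finite_of_card_ne_zero hi1
  obtain ⟨c, hc0⟩ := Ultrafilter.eq_pure_of_finite (U.map (fun x : G => (QuotientGroup.mk x : G ⧸ T)))
  have hc : ∀ᶠ x in (U : Filter G), (QuotientGroup.mk x : G ⧸ T) = c := by
    have h1 : {c} ∈ U.map (fun x : G => (QuotientGroup.mk x : G ⧸ T)) := by
      rw [hc0]
      exact mem_pure.2 rfl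
    rw [Ultrafilter.mem_map] at h1
    exact h1
  obtain ⟨e, he⟩ := exists_surjective_nat T
  -- the states
  set Inv : ℕ → List G × List G × G → Prop := fun n p => (p.1 ++ p.2.1).Nodup ∧
    (∀ a ∈ p.1 ++ p.2.1, a ∈ T) ∧ p.2.1.length = n ∧ c * (p.2.2 : G ⧸ T) = 1 ∧
    Ab good (tr U p.2.2) n p.2.1.toFinset with hInv
  set Rel : ℕ → List G × List G × G → List G × List G × G → Prop := fun t p p' =>
    ∃ M : List G, p'.1 = p.1 ++ (p.2.1 ++ M) ∧ Win good (k₀ + t) (p.2.1 ++ (M ++ p'.2.1)) ∧
      (e t : G) ∈ p'.1 ++ p'.2.1 with hRel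
  have hstep : ∀ (t : ℕ) (p : List G × List G × G), ∃ p' : List G × List G × G, Inv (k₀ + t) p →
      Inv (k₀ + (t + 1)) p' ∧ Rel t p p' := by
    intro t p
    by_cases hp : Inv (k₀ + t) p
    · obtain ⟨h1, h2, h3, h4, h5⟩ := hp
      obtain ⟨M, L', z', a1, a2, a3, a4, a5, a6, a7⟩ := step hh hinv hU hcl T c hc
        (hk₀ (k₀ + t) (by omega)) h4 h3 h5 (p.1 ++ p.2.1).toFinset (y := (e t : G)) (e t).2
      refine ⟨(p.1 ++ (p.2.1 ++ M), L', z'), fun _ => ⟨⟨?_, ?_, ?_, a1, ?_⟩, M, rfl, a6, ?_⟩⟩
      · show (p.1 ++ (p.2.1 ++ M) ++ L').Nodup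
        have e1 : p.1 ++ (p.2.1 ++ M) ++ L' = (p.1 ++ p.2.1) ++ (M ++ L') := by
          simp [List.append_assoc]
        rw [e1, List.nodup_append']
        exact ⟨h1, a2, fun a ha ha' => (a3 a ha').2 (List.mem_toFinset.2 ha)⟩
      · intro a ha
        have e1 : p.1 ++ (p.2.1 ++ M) ++ L' = (p.1 ++ p.2.1) ++ (M ++ L') := by
          simp [List.append_assoc]
        have ha' : a ∈ (p.1 ++ p.2.1) ++ (M ++ L') := by rw [← e1]; exact ha
        rcases List.mem_append.1 ha' with h | h
        · exact h2 a h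
        · exact (a3 a h).1
      · show L'.length = k₀ + (t + 1)
        rw [a4]; ring
      · show Ab good (tr U z') (k₀ + (t + 1)) L'.toFinset
        exact a5
      · show (e t : G) ∈ p.1 ++ (p.2.1 ++ M) ++ L'
        have e1 : p.1 ++ (p.2.1 ++ M) ++ L' = (p.1 ++ p.2.1) ++ (M ++ L') := by
          simp [List.append_assoc]
        rw [e1]
        rcases a7 with h | h
        · exact List.mem_append_left _ (List.mem_toFinset.1 h)
        · exact List.mem_append_right _ h
    · exact ⟨p, fun h => absurd h hp⟩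
  choose f hf using hstep
  -- the first state
  obtain ⟨z₀, hz₀⟩ : ∃ z₀ : G, c * (z₀ : G ⧸ T) = 1 := by
    obtain ⟨z, hz⟩ := QuotientGroup.mk_surjective c⁻¹
    exact ⟨z, by rw [hz, mul_inv_cancel]⟩
  obtain ⟨L₀, l1, l2, l3, l4⟩ := gen_list (tr U z₀) (tr_np hU z₀) T (lives T c hc hz₀) k₀
    [(Ab good (tr U z₀) k₀, ∅, k₀)] (by
      intro r hr
      simp only [List.mem_cons, List.not_mem_nil, or_false] at hr
      subst hr
      exact hcl k₀ z₀) ∅
  have l5 := l4 (Ab good (tr U z₀) k₀, ∅, k₀) (by simp) _ subset_rfl (by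
      rw [List.toFinset_card_of_nodup l2, l1])
  let p : ℕ → List G × List G × G := fun t => Nat.rec (([], L₀, z₀) : List G × List G × G)
    (fun t q => f t q) t
  have hp0 : Inv (k₀ + 0) (p 0) := by
    refine ⟨?_, ?_, ?_, hz₀, ?_⟩
    · show ([] ++ L₀).Nodup
      simpa using l2
    · intro a ha
      have ha' : a ∈ ([] : List G) ++ L₀ := ha
      exact (l3 a (by simpa using ha')).1
    · exact l1
    · show Ab good (tr U z₀) (k₀ + 0) L₀.toFinset
      simpa using l5
  have hpt : ∀ t, Inv (k₀ + t) (p t) := by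
    intro t
    induction t with
    | zero => exact hp0
    | succ t ih => exact (hf t (p t) ih).1
  have hrel : ∀ t, Rel t (p t) (p (t + 1)) := fun t => (hf t (p t) (hpt t)).2
  set tot : ℕ → List G := fun t => (p t).1 ++ (p t).2.1 with htot
  have hlen2 : ∀ t, (p t).2.1.length = k₀ + t := fun t => (hpt t).2.2.1
  haveI : Inhabited G := ⟨1⟩
  obtain ⟨x, hx1, hx2⟩ := seq_of_chain tot (by
    intro t
    obtain ⟨M, h1, -, -⟩ := hrel t
    refine ⟨M ++ (p (t + 1)).2.1, ?_, ?_⟩
    · intro h
      have h2 := congrArg List.length h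
      rw [List.length_append, hlen2 (t + 1)] at h2
      simp at h2
    · rw [htot]
      dsimp only
      rw [h1]
      simp [List.append_assoc])
  have hmono : ∀ s t, s ≤ t → (tot s).length ≤ (tot t).length := by
    intro s t hst
    induction hst with
    | refl => exact le_rfl
    | step _ ih =>
      refine ih.trans ?_
      obtain ⟨M, h1, -, -⟩ := hrel _
      rw [htot]
      dsimp only
      rw [h1]
      simp only [List.length_append]
      omega
  refine ⟨x, ?_, ?_, ?_⟩
  · intro i j hij
    obtain ⟨t, ht⟩ := hx2 (max i j)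
    have hi : i < (tot t).length := lt_of_le_of_lt (le_max_left _ _) ht
    have hj : j < (tot t).length := lt_of_le_of_lt (le_max_right _ _) ht
    have h1 : (tot t)[i] = (tot t)[j] := by rw [hx1 t i hi, hx1 t j hj, hij]
    exact (List.Nodup.getElem_inj_iff (hpt t).1).1 h1
  · ext y
    constructor
    · rintro ⟨i, rfl⟩
      obtain ⟨t, ht⟩ := hx2 i
      rw [← hx1 t i ht]
      exact (hpt t).2.1 _ (List.getElem_mem _)
    · intro hy
      obtain ⟨t, ht⟩ := he ⟨y, hy⟩
      obtain ⟨M, -, -, h3⟩ := hrel t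
      rw [ht] at h3
      obtain ⟨i, hi, hi2⟩ := List.getElem_of_mem h3
      exact ⟨i, by rw [← hx1 (t + 1) i hi]; exact hi2⟩
  · intro k
    refine ⟨((p k).1).length, fun i hi => ?_⟩
    have hw : ∀ t, (p (t + 1)).1.length = (p t).1.length + (k₀ + t) + (p (t + 1)).1.length -
        ((p t).1.length + (k₀ + t)) ∧ (p t).1.length + (k₀ + t) ≤ (p (t + 1)).1.length := by
      intro t
      obtain ⟨M, h1, -, -⟩ := hrel t
      have h2 : (p (t + 1)).1.length = (p t).1.length + ((k₀ + t) + M.length) := by
        rw [h1, List.length_append, List.length_append, hlen2]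
      omega
    have hex : ∃ t, k < t ∧ i < (p t).1.length := by
      have hgrow : ∀ t, t ≤ (p (t + 1)).1.length := by
        intro t
        induction t with
        | zero => exact Nat.zero_le _
        | succ t ih => have := (hw (t + 1)).2; omega
      exact ⟨max k (i + 1) + 1, by omega, by have := hgrow (max k (i + 1)); omega⟩
    have hspec := Nat.find_spec hex
    have hmin := fun m (hm : m < Nat.find hex) => Nat.find_min hex hm
    obtain ⟨t, ht⟩ : ∃ t, Nat.find hex = t + 1 := ⟨Nat.find hex - 1, by omega⟩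
    rw [ht] at hspec hmin
    have hkt : k ≤ t := by omega
    have hti : (p t).1.length ≤ i := by
      rcases Nat.lt_or_ge k t with h | h
      · have := hmin t (by omega)
        by_contra h'
        exact this ⟨h, not_le.1 h'⟩
      · have : k = t := le_antisymm hkt h
        rw [← this]
        exact hi
    obtain ⟨M, h1, h2, -⟩ := hrel t
    set m := (p t).2.1 ++ (M ++ (p (t + 1)).2.1) with hm
    have htm : tot (t + 1) = (p t).1 ++ m := by
      rw [htot]
      dsimp only
      rw [h1, hm]
      simp [List.append_assoc]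
    have hlt : ∀ j < k, i + j < (tot (t + 1)).length := by
      intro j hj
      have h3 : (tot (t + 1)).length = (p (t + 1)).1.length + (k₀ + (t + 1)) := by
        rw [htot]
        dsimp only
        rw [List.length_append, hlen2 (t + 1)]
      omega
    have hwin := h2 ((m.drop (i - (p t).1.length)).take k)
      ((List.take_prefix _ _).isInfix.trans (List.drop_suffix _ _).isInfix)
      ((List.length_take_le _ _).trans (by omega))
    refine hh _ _ ?_ hwin
    intro y hy
    obtain ⟨j, hj, rfl⟩ := mem_image.1 hy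
    rw [mem_range] at hj
    have h3 := hlt j hj
    rw [List.mem_toFinset, ← hx1 (t + 1) (i + j) h3]
    have h4 : i + j - (p t).1.length < m.length := by
      rw [htm, List.length_append] at h3
      omega
    have h5 : (tot (t + 1))[i + j] = m[i + j - (p t).1.length] := by
      simp only [htm]
      rw [List.getElem_append_right (by omega)]
    rw [h5]
    have h6 : j < ((m.drop (i - (p t).1.length)).take k).length := by
      rw [List.length_take, List.length_drop]
      omega
    have h7 : ((m.drop (i - (p t).1.length)).take k)[j] = m[i + j - (p t).1.length] := by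
      rw [List.getElem_take, List.getElem_drop]
      congr 1
      omega
    rw [← h7]
    exact List.getElem_mem _

end Pool.Agent.Run7.h166.GS
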