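import Mathlib
import Pool.Agent.Run7.h166.GS.Main
import Pool.Agent.Run7.h166.TS.FinE

/-!
# The group of the affine maps `x ↦ u x + v` with rational coefficients, `u > 0`, and the sets of maps which
take prime values simultaneously
-/

set_option autoImplicit false

namespace Pool.Agent.Run7.h166.GS

open Filter Finset
open Pool.Agent.Run7.h166.TS (Pr Often mtE blocks_choice')

/-- the affine maps `x ↦ u x + v`, `u > 0` -/
@[ext] structure Af : Type where
  u : ℚ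
  v : ℚ
  pos : 0 < u

noncomputable instance : DecidableEq Af := Classical.decEq _

instance : Group Af where
  mul f g := ⟨f.u * g.u, f.u * g.v + f.v, mul_pos f.pos g.pos⟩
  one := ⟨1, 0, one_pos⟩
  inv f := ⟨f.u⁻¹, -(f.u⁻¹ * f.v), inv_pos.2 f.pos⟩
  mul_assoc f g h := by
    apply Af.ext
    · show f.u * g.u * h.u = f.u * (g.u * h.u)
      ring
    · show f.u * g.u * h.v + (f.u * g.v + f.v) = f.u * (g.u * h.v + g.v) + f.v
      ring
  one_mul f := by
    apply Af.ext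
    · show 1 * f.u = f.u
      ring
    · show 1 * f.v + 0 = f.v
      ring
  mul_one f := by
    apply Af.ext
    · show f.u * 1 = f.u
      ring
    · show f.u * 0 + f.v = f.v
      ring
  inv_mul_cancel f := by
    have h := f.pos.ne'
    apply Af.ext
    · show f.u⁻¹ * f.u = 1
      field_simp
    · show f.u⁻¹ * f.v + -(f.u⁻¹ * f.v) = 0
      ring

theorem mul_u (f g : Af) : (f * g).u = f.u * g.u := rfl
theorem mul_v (f g : Af) : (f * g).v = f.u * g.v + f.v := rfl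
theorem one_u : (1 : Af).u = 1 := rfl
theorem one_v : (1 : Af).v = 0 := rfl
theorem inv_u (f : Af) : (f⁻¹).u = f.u⁻¹ := rfl
theorem inv_v (f : Af) : (f⁻¹).v = -(f.u⁻¹ * f.v) := rfl

instance : Countable Af := by
  have h : Function.Injective (fun f : Af => (f.u, f.v)) := by
    intro f g h
    simp only [Prod.mk.injEq] at h
    exact Af.ext h.1 h.2
  exact h.countable

open Classical in
/-- the numbers `n ≤ N` at which all `f ∘ z`, `f ∈ F`, are prime -/
noncomputable def Cnt (F : Finset Af) (z : Af) (N : ℕ) : Finset ℕ :=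
  (Icc 1 N).filter (fun n : ℕ => ∀ f ∈ F, ∃ p : ℕ, p.Prime ∧ (p : ℚ) = (f * z).u * n + (f * z).v)

/-- the maps of `F` take prime values simultaneously -/
def App (F : Finset Af) : Prop :=
  ∃ z : Af, ∀ η : ℝ, 0 < η → ∃ᶠ N : ℕ in atTop, (N : ℝ) ^ (1 - η) ≤ ((Cnt F z N).card : ℝ)

theorem app_hered : ∀ s t : Finset Af, s ⊆ t → App t → App s := by
  classical
  rintro s t hst ⟨z, hz⟩
  refine ⟨z, fun η hη => (hz η hη).mono fun N hN => hN.trans ?_⟩
  rw [Nat.cast_le]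
  refine card_le_card ?_
  unfold Cnt
  refine monotone_filter_right _ ?_
  intro n _ hn f hf
  exact hn f (hst hf)

theorem app_inv (w : Af) (s : Finset Af) (h : App s) : App (s.image (fun x => x * w)) := by
  classical
  obtain ⟨z, hz⟩ := h
  refine ⟨w⁻¹ * z, fun η hη => (hz η hη).mono fun N hN => hN.trans ?_⟩
  rw [Nat.cast_le]
  refine card_le_card ?_
  unfold Cnt
  refine monotone_filter_right _ ?_
  intro n _ hn f hf
  obtain ⟨g, hg, rfl⟩ := mem_image.1 hf
  have e : g * w * (w⁻¹ * z) = g * z := by group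
  rw [e]
  exact hn g hg

/-- integral forms -/
theorem int_form {u v : ℚ} (hu : 0 < u) {D : ℕ} (h1 : u.num.natAbs ∣ D) (h2 : u.den ∣ D) (h3 : v.den ∣ D)
    {b : ℕ} (hb : 0 < b) (hD : D ^ 2 ∣ b) : ∃ A B : ℤ, (A : ℚ) = b * u ∧ (B : ℚ) = b * v + 1 ∧ 1 ≤ A ∧
      IsCoprime A B ∧ (D : ℤ) ∣ B - 1 := by
  obtain ⟨t, ht⟩ := hD
  obtain ⟨d, hd⟩ := h2
  obtain ⟨e, he⟩ := h3
  obtain ⟨m, hm⟩ := h1
  have hnum : 0 < u.num := Rat.num_pos.2 hu
  have hm' : (D : ℤ) = u.num * m := by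
    have : (u.num.natAbs : ℤ) = u.num := Int.natAbs_of_nonneg hnum.le
    rw [hm]
    push_cast
    rw [abs_of_pos hnum]
  have hA : ((D * t * d * u.num : ℤ) : ℚ) = b * u := by
    have h4 : (u.den : ℚ) * u = u.num := by
      rw [mul_comm]; exact Rat.mul_den_eq_num u
    rw [ht]
    push_cast
    rw [← h4]
    have h5 : (D : ℚ) = u.den * d := by exact_mod_cast hd
    rw [show (D : ℚ) ^ 2 = D * (u.den * d) by rw [← h5]; ring]
    ring
  have hB : ((D * t * e * v.num + 1 : ℤ) : ℚ) = b * v + 1 := by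
    have h4 : (v.den : ℚ) * v = v.num := by
      rw [mul_comm]; exact Rat.mul_den_eq_num v
    rw [ht]
    push_cast
    rw [← h4]
    have h5 : (D : ℚ) = v.den * e := by exact_mod_cast he
    rw [show (D : ℚ) ^ 2 = D * (v.den * e) by rw [← h5]; ring]
    ring
  have hpos : (1 : ℤ) ≤ D * t * d * u.num := by
    have : (0 : ℚ) < ((D * t * d * u.num : ℤ) : ℚ) := by
      rw [hA]
      have : (0 : ℚ) < b := by exact_mod_cast hb
      positivity
    have h6 : (0 : ℤ) < D * t * d * u.num := by exact_mod_cast this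
    omega
  refine ⟨_, _, hA, hB, hpos, ?_, ⟨t * e * v.num, by ring⟩⟩
  have h7 : IsCoprime ((D : ℤ) * t) (D * t * e * v.num + 1) := ⟨-(e * v.num), 1, by ring⟩
  have h8 : ((D : ℤ) * t * d * u.num) ∣ (D * t) ^ 3 := by
    have e1 : ((D : ℤ) * t) ^ 3 = (D * t * d * u.num) * (u.den * t * (m * t)) := by
      have h9 : (D : ℤ) = u.den * d := by exact_mod_cast hd
      calc ((D : ℤ) * t) ^ 3 = (D * t) * (D * t) * (D * t) := by ring
        _ = (D * t) * ((u.den * d) * t) * ((u.num * m) * t) := by rw [← h9, ← hm']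
        _ = _ := by ring
    exact ⟨_, e1⟩
  exact (h7.pow_left (m := 3)).of_isCoprime_of_dvd_left h8

open Classical in
/-- the coloured Maynard-Tao theorem as a statement on blocks -/
theorem hits_of (k : ℕ) : ∃ S K : ℕ, 1 ≤ S ∧ 1 ≤ K ∧ ∀ {α : Type} (good : Finset α → Prop)
    (C : Fin (3 + 1) → Set α) (φ : α → ℤ × ℤ),
    (∀ g, ∀ f ∈ C g, ∀ g', ∀ f' ∈ C g', φ f = φ f' → f = f') →
    (∀ g, ∀ f ∈ C g, 1 ≤ (φ f).1 ∧ IsCoprime (φ f).1 (φ f).2) →
    (∀ p : ℕ, p.Prime → p ≤ (3 + 1) * S * K → ∃ r : ℤ, ∀ g, ∀ f ∈ C g, ¬ (p : ℤ) ∣ (φ f).1 * r + (φ f).2) →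
    (∀ s : Finset α, (∀ f ∈ s, ∃ g, f ∈ C g) → (∀ η : ℝ, 0 < η → ∃ᶠ N : ℕ in atTop, (N : ℝ) ^ (1 - η) ≤
      (((Icc 1 N).filter (fun n : ℕ => ∀ f ∈ s, Pr (φ f) n)).card : ℝ)) → good s) →
    Hits good k S K C := by
  obtain ⟨c, hc, hc1, hU⟩ := mtE
  obtain ⟨S, hS1, hS⟩ := blocks_choice' c hc hc1 k
  obtain ⟨K, hK, hU1⟩ := hU ((3 + 1) * S) (S + 3 * k) (by omega) hS
  refine ⟨S, K, hS1, hK, ?_⟩
  intro α good C φ hφ hC hloc hgood X hX hXC
  set e : Fin ((3 + 1) * S) ≃ Fin (3 + 1) × Fin S := finProdFinEquiv.symm with he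
  set V : Finset (ℤ × ℤ) := univ.image (fun u => φ (X u)) with hV
  obtain ⟨W, hW1, hgd⟩ := hU1 V (by
      intro f hf
      obtain ⟨u, -, rfl⟩ := mem_image.1 hf
      exact hC _ _ (hXC u)) (by
      intro p hp hpB
      obtain ⟨r, hr⟩ := hloc p hp hpB
      refine ⟨r, fun f hf => ?_⟩
      obtain ⟨u, -, rfl⟩ := mem_image.1 hf
      exact hr _ _ (hXC u))
    (fun u => φ (X ((e u.1).1, (e u.1).2, u.2))) (by
      rintro ⟨g, i⟩ ⟨g', i'⟩ h
      have h1 := hX (hφ _ _ (hXC _) _ _ (hXC _) h)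
      simp only [Prod.mk.injEq] at h1
      have h2 : g = g' := e.injective (Prod.ext h1.1 h1.2.1)
      rw [h2, h1.2.2]) (fun u => mem_image_of_mem _ (mem_univ _))
  refine ⟨W.image (fun u => X ((e u.1).1, (e u.1).2, u.2)), ?_, (W.image Prod.fst).image e, ?_, ?_⟩
  · refine hgood _ ?_ ?_
    · intro f hf
      obtain ⟨u, -, rfl⟩ := mem_image.1 hf
      exact ⟨_, hXC _⟩
    · intro η hη
      refine (hgd ∅ (by simp) η hη).mono fun N hN => hN.trans ?_
      rw [Nat.cast_le]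
      refine card_le_card (monotone_filter_right _ ?_)
      intro n _ hn f hf
      obtain ⟨u, hu, rfl⟩ := mem_image.1 hf
      exact hn.1 _ (mem_image.2 ⟨u, hu, rfl⟩)
  · rw [card_image_of_injective _ e.injective]
    omega
  · intro b hb
    obtain ⟨g, hg, rfl⟩ := mem_image.1 hb
    obtain ⟨u, hu, rfl⟩ := mem_image.1 hg
    exact ⟨u.2, mem_image.2 ⟨u, hu, rfl⟩⟩

end Pool.Agent.Run7.h166.GS
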