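import Mathlib
import Pool.Agent.Run7.h166.GS.Af

/-!
# All affine maps with slopes in a group of index at most three, in one sequence
-/

set_option autoImplicit false

namespace Pool.Agent.Run7.h166.GS

open Filter Finset
open Pool.Agent.Run7.h166.TS (Pr)

/-- the maps `(n + 1)! x + 1` -/
noncomputable def base (n : ℕ) : Af := ⟨((n + 1).factorial : ℚ), 1, by positivity⟩

theorem base_inj : Function.Injective base := by
  intro m n h
  have h1 : ((m + 1).factorial : ℚ) = (n + 1).factorial := congrArg Af.u h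
  have h2 : (m + 1).factorial = (n + 1).factorial := by exact_mod_cast h1
  rcases lt_trichotomy m n with h3 | h3 | h3
  · have := (Nat.factorial_lt (n := m + 1) (by omega)).2 (by omega : m + 1 < n + 1)
    omega
  · exact h3
  · have := (Nat.factorial_lt (n := n + 1) (by omega)).2 (by omega : n + 1 < m + 1)
    omega

/-- a limit of the maps `(n + 1)! x + 1` -/
noncomputable def UU : Ultrafilter Af := (hyperfilter ℕ).map base

theorem np_map {α : Type} {b : ℕ → α} (hb : ∀ y, {n | b n = y}.Finite) :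
    ∀ E : Finset α, ∀ᶠ x in (((hyperfilter ℕ).map b : Ultrafilter α) : Filter α), x ∉ E := by
  intro E
  rw [Ultrafilter.coe_map, Filter.eventually_map]
  refine hyperfilter_le_cofinite ?_
  show ∀ᶠ n in cofinite, b n ∉ E
  rw [Filter.eventually_cofinite]
  have h1 : {n | ¬ b n ∉ E} ⊆ ⋃ y ∈ E, {n | b n = y} := by
    intro n hn
    simp only [Set.mem_setOf_eq, not_not] at hn
    simp only [Set.mem_iUnion, Set.mem_setOf_eq]
    exact ⟨b n, hn, rfl⟩
  refine Set.Finite.subset ?_ h1
  exact Set.Finite.biUnion E.finite_toSet fun y _ => hb y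

theorem UU_np : ∀ E : Finset Af, ∀ᶠ x in (UU : Filter Af), x ∉ E := by
  refine np_map fun y => ?_
  refine Set.Subsingleton.finite ?_
  intro m hm n hn
  exact base_inj (hm.trans hn.symm)

open Classical in
theorem hD_aff (k : ℕ) (z : Fin (3 + 1) → Af) : ∃ g g' : Fin (3 + 1), g < g' ∧
    Dir App k (tr UU (z g)) (tr UU (z g')) := by
  obtain ⟨S, K, hS, hK, H⟩ := hits_of k
  set D : ℕ := (∏ g, ((z g).u.num.natAbs * (z g).u.den * (z g).v.den)) * ((3 + 1) * S * K).factorial
    with hD
  have hDpos : 0 < D := by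
    rw [hD]
    refine Nat.mul_pos (Finset.prod_pos fun g _ => ?_) (Nat.factorial_pos _)
    refine Nat.mul_pos (Nat.mul_pos ?_ (Rat.den_pos _)) (Rat.den_pos _)
    have := Rat.num_pos.2 (z g).pos
    omega
  have hdiv : ∀ g, (z g).u.num.natAbs * (z g).u.den * (z g).v.den ∣ D := fun g =>
    (Finset.dvd_prod_of_mem (fun g => (z g).u.num.natAbs * (z g).u.den * (z g).v.den)
      (Finset.mem_univ g)).mul_right _
  set C : Fin (3 + 1) → Set Af := fun g => {f | ∃ n : ℕ, D ^ 2 ≤ n + 1 ∧ f = base n * z g} with hC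
  have hform : ∀ g, ∀ f ∈ C g, ∃ A B : ℤ, (A : ℚ) = f.u ∧ (B : ℚ) = f.v ∧ 1 ≤ A ∧ IsCoprime A B ∧
      (D : ℤ) ∣ B - 1 := by
    rintro g f ⟨n, hn, rfl⟩
    obtain ⟨A, B, h1, h2, h3, h4, h5⟩ := int_form (u := (z g).u) (v := (z g).v) (z g).pos (D := D)
      (((dvd_mul_right _ _).trans (dvd_mul_right _ _)).trans (hdiv g))
      (((dvd_mul_left _ _).trans (dvd_mul_right _ _)).trans (hdiv g))
      ((dvd_mul_left _ _).trans (hdiv g)) (b := (n + 1).factorial) (Nat.factorial_pos _)
      (Nat.dvd_factorial (by positivity) hn)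
    exact ⟨A, B, h1, h2, h3, h4, h5⟩
  have hnum : ∀ g, ∀ f ∈ C g, ((f.u.num : ℤ) : ℚ) = f.u ∧ ((f.v.num : ℤ) : ℚ) = f.v ∧
      1 ≤ f.u.num ∧ IsCoprime f.u.num f.v.num ∧ (D : ℤ) ∣ f.v.num - 1 := by
    intro g f hf
    obtain ⟨A, B, h1, h2, h3, h4, h5⟩ := hform g f hf
    have e1 : f.u.num = A := by rw [← h1, Rat.num_intCast]
    have e2 : f.v.num = B := by rw [← h2, Rat.num_intCast]
    rw [e1, e2]
    exact ⟨h1, h2, h3, h4, h5⟩
  have hHits : Hits App k S K C := by
    refine H App C (fun f => (f.u.num, f.v.num)) ?_ ?_ ?_ ?_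
    · intro g f hf g' f' hf' h
      simp only [Prod.mk.injEq] at h
      obtain ⟨h1, h2, -⟩ := hnum g f hf
      obtain ⟨h3, h4, -⟩ := hnum g' f' hf'
      exact Af.ext (by rw [← h1, ← h3, h.1]) (by rw [← h2, ← h4, h.2])
    · intro g f hf
      obtain ⟨-, -, h3, h4, -⟩ := hnum g f hf
      exact ⟨h3, h4⟩
    · intro p hp hpB
      refine ⟨0, fun g f hf h => ?_⟩
      obtain ⟨-, -, -, -, h5⟩ := hnum g f hf
      rw [mul_zero, zero_add] at h
      have h6 : (p : ℤ) ∣ D := by
        rw [hD]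
        push_cast
        exact dvd_mul_of_dvd_right (by exact_mod_cast (hp.dvd_factorial.2 hpB)) _
      have h7 := dvd_sub h (h6.trans h5)
      have h8 : (p : ℤ) ∣ 1 := by simpa using h7
      exact (Nat.prime_iff_prime_int.1 hp).not_dvd_one h8
    · intro s hs hcount
      refine ⟨1, fun η hη => (hcount η hη).mono fun N hN => hN.trans ?_⟩
      rw [Nat.cast_le]
      refine card_le_card ?_
      unfold Cnt
      refine monotone_filter_right _ ?_
      intro n _ hn f hf
      obtain ⟨g, hg⟩ := hs f hf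
      obtain ⟨h1, h2, -⟩ := hnum g f hg
      have h3 := hn f hf
      unfold Pr at h3
      refine ⟨_, h3, ?_⟩
      have h4 : (((f.u.num * n + f.v.num).toNat : ℤ)) = f.u.num * n + f.v.num := by
        apply Int.toNat_of_nonneg
        by_contra h5
        dsimp only at h3
        rw [Int.toNat_of_nonpos (by omega)] at h3
        exact Nat.not_prime_zero h3
      rw [mul_one, ← h1, ← h2]
      exact_mod_cast h4
  refine dir_of_hits app_hered (fun g => tr UU (z g)) (fun g => tr_np UU_np (z g)) C ?_ hHits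
  intro g
  refine mem_tr ?_
  unfold UU
  rw [Ultrafilter.coe_map, Filter.eventually_map]
  refine Nat.hyperfilter_le_atTop ?_
  filter_upwards [eventually_ge_atTop (D ^ 2)] with n hn
  exact ⟨n, by omega, rfl⟩

/-- translations -/
def tau (v : ℚ) : Af := ⟨1, v, one_pos⟩

theorem tau_pow (v : ℚ) (n : ℕ) : (tau v) ^ n = tau (n * v) := by
  induction n with
  | zero =>
    rw [pow_zero]
    apply Af.ext
    · rfl
    · show (0 : ℚ) = ((0 : ℕ) : ℚ) * v
      simp
  | succ n ih =>
    rw [pow_succ, ih]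
    apply Af.ext
    · show (1 : ℚ) * 1 = 1
      ring
    · show 1 * v + (n : ℚ) * v = ((n + 1 : ℕ) : ℚ) * v
      push_cast
      ring

theorem tau_mem (T : Subgroup Af) (h0 : T.index ≠ 0) (h3 : T.index ≤ 3) (v : ℚ) : tau v ∈ T := by
  have h1 : (tau (v / 6)) ^ 6 ∈ T := by
    refine Subgroup.pow_mem_of_index_ne_zero_of_dvd h0 _ ?_
    intro m hm hm'
    have hm3 : m ≤ 3 := hm'.trans h3
    clear hm'
    interval_cases m
    all_goals first | norm_num | omega
  rw [tau_pow] at h1
  have e : (((6 : ℕ) : ℚ)) * (v / 6) = v := by push_cast; ring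
  rwa [e] at h1

theorem normal_aff (T : Subgroup Af) (h0 : T.index ≠ 0) (h3 : T.index ≤ 3) : T.Normal := by
  refine ⟨fun f hf g => ?_⟩
  have e : g * f * g⁻¹ = tau ((g * f * g⁻¹ * f⁻¹).v) * f := by
    have h1 : g * f * g⁻¹ * f⁻¹ = tau ((g * f * g⁻¹ * f⁻¹).v) := by
      apply Af.ext
      · show g.u * f.u * g.u⁻¹ * f.u⁻¹ = 1
        have := g.pos.ne'
        have := f.pos.ne'
        field_simp
      · rfl
    rw [← h1]
    group
  rw [e]
  exact T.mul_mem (tau_mem T h0 h3 _) hf

/-- **All affine maps with slopes in a group of index at most three, in one sequence** -/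
theorem aff_seq : ∃ T : Subgroup Af, T.index ≠ 0 ∧ T.index ≤ 3 ∧ ∃ x : ℕ → Af, Function.Injective x ∧
    Set.range x = T ∧ ∀ k, ∃ i₀, ∀ i, i₀ ≤ i → App ((range k).image (fun j => x (i + j))) :=
  one_seq app_hered app_inv UU_np hD_aff normal_aff

end Pool.Agent.Run7.h166.GS
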