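import Mathlib
import Pool.Agent.Run7.h166.GS.AfSeq

/-!
# The final statements: all affine maps, and all ratios of shifted primes
-/

set_option autoImplicit false

namespace Pool.Agent.Run7.h166.GS

open Filter Finset
open Pool.Agent.Run7.h166.TS (Pr)

theorem scale_freq (a b : ℕ → ℕ) (C : ℕ) (hC : 1 ≤ C) (hab : ∀ N, 1 ≤ N → a N ≤ b (C * N))
    (h : ∀ η : ℝ, 0 < η → ∃ᶠ N : ℕ in atTop, (N : ℝ) ^ (1 - η) ≤ (a N : ℝ)) :
    ∀ η : ℝ, 0 < η → ∃ᶠ N : ℕ in atTop, (N : ℝ) ^ (1 - η) ≤ (b N : ℝ) := by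
  intro η hη
  have h1 : ∀ᶠ N : ℕ in atTop, (C : ℝ) ≤ (N : ℝ) ^ (η / 2) :=
    ((tendsto_rpow_atTop (by positivity)).comp tendsto_natCast_atTop_atTop).eventually_ge_atTop _
  have h2 := (h (η / 2) (by positivity)).and_eventually (h1.and (eventually_ge_atTop 1))
  rw [Filter.frequently_atTop] at h2 ⊢
  intro N₀
  obtain ⟨N, hN, h3, h4, h5⟩ := h2 N₀
  refine ⟨C * N, hN.trans (Nat.le_mul_of_pos_left N hC), ?_⟩
  have hNr : (0 : ℝ) < N := by exact_mod_cast h5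
  have hCr : (1 : ℝ) ≤ C := by exact_mod_cast hC
  calc (((C * N : ℕ) : ℝ)) ^ (1 - η) = (C : ℝ) ^ (1 - η) * (N : ℝ) ^ (1 - η) := by
        rw [Nat.cast_mul, Real.mul_rpow (by positivity) hNr.le]
    _ ≤ (C : ℝ) ^ (1 : ℝ) * (N : ℝ) ^ (1 - η) := by
        refine mul_le_mul_of_nonneg_right ?_ (by positivity)
        exact Real.rpow_le_rpow_of_exponent_le hCr (by linarith)
    _ ≤ (N : ℝ) ^ (η / 2) * (N : ℝ) ^ (1 - η) := by
        rw [Real.rpow_one]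
        exact mul_le_mul_of_nonneg_right h4 (by positivity)
    _ = (N : ℝ) ^ (1 - η / 2) := by
        rw [← Real.rpow_add hNr]
        congr 1
        ring
    _ ≤ (a N : ℝ) := h3
    _ ≤ (b (C * N) : ℝ) := by exact_mod_cast hab N h5

open Classical in
theorem app_sim {F : Finset Af} (h : App F) {f₀ : Af} (hf₀ : f₀ ∈ F) : ∀ η : ℝ, 0 < η →
    ∃ᶠ N : ℕ in atTop, (N : ℝ) ^ (1 - η) ≤ (((Icc 1 N).filter (fun p : ℕ => p.Prime ∧
      ∀ f ∈ F, ∃ q : ℕ, q.Prime ∧ (q : ℚ) = f.u * (((p : ℚ) - f₀.v) / f₀.u) + f.v)).card : ℝ) := by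
  obtain ⟨z, hz⟩ := h
  set A : ℚ := (f₀ * z).u with hA
  set B : ℚ := (f₀ * z).v with hB
  have hApos : 0 < A := (f₀ * z).pos
  set C : ℕ := ⌈A⌉₊ + ⌈|B|⌉₊ with hC
  have hC1 : 1 ≤ C := by
    have : 0 < ⌈A⌉₊ := Nat.ceil_pos.2 hApos
    omega
  refine scale_freq (fun N => (Cnt F z N).card) (fun N => ((Icc 1 N).filter (fun p : ℕ => p.Prime ∧
      ∀ f ∈ F, ∃ q : ℕ, q.Prime ∧ (q : ℚ) = f.u * (((p : ℚ) - f₀.v) / f₀.u) + f.v)).card) C hC1 ?_ hz
  intro N hN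
  have h1 : ∀ n ∈ Cnt F z N, ∃ p : ℕ, p.Prime ∧ (p : ℚ) = A * n + B := by
    intro n hn
    exact (mem_filter.1 hn).2 f₀ hf₀
  choose! π hπ1 hπ2 using h1
  refine Finset.card_le_card_of_injOn π ?_ ?_
  · intro n hn
    rw [mem_coe] at hn
    obtain ⟨hn1, hn2⟩ := mem_filter.1 hn
    rw [mem_Icc] at hn1
    rw [mem_coe, mem_filter, mem_Icc]
    refine ⟨⟨(hπ1 n hn).one_lt.le, ?_⟩, hπ1 n hn, ?_⟩
    · have h2 : ((π n : ℕ) : ℚ) ≤ ((C * N : ℕ) : ℚ) := by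
        rw [hπ2 n hn, hC]
        push_cast
        have h3 : A ≤ ⌈A⌉₊ := Nat.le_ceil A
        have h4 : B ≤ ⌈|B|⌉₊ := (le_abs_self B).trans (Nat.le_ceil _)
        have h5 : (n : ℚ) ≤ N := by exact_mod_cast hn1.2
        have h6 : (1 : ℚ) ≤ N := by exact_mod_cast hN
        have h7 : (0 : ℚ) ≤ (⌈|B|⌉₊ : ℚ) := Nat.cast_nonneg _
        have h8 : (0 : ℚ) ≤ n := Nat.cast_nonneg _
        have h9 : A * n ≤ (⌈A⌉₊ : ℚ) * N := mul_le_mul h3 h5 h8 (Nat.cast_nonneg _)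
        nlinarith
      exact_mod_cast h2
    · intro f hf
      obtain ⟨q, hq1, hq2⟩ := hn2 f hf
      refine ⟨q, hq1, ?_⟩
      rw [hq2, hπ2 n hn, hA, hB]
      simp only [mul_u, mul_v]
      have := f₀.pos.ne'
      field_simp
      ring
  · intro n hn m hm hnm
    rw [mem_coe] at hn hm
    have h2 := hπ2 n hn
    rw [hnm, hπ2 m hm] at h2
    have h3 : A * ((m : ℚ) - n) = 0 := by linarith
    rcases mul_eq_zero.1 h3 with h4 | h4
    · exact absurd h4 hApos.ne'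
    · have h5 : (m : ℚ) = n := by linarith
      exact_mod_cast h5.symm

/-- the homothety with the absolute value of a rational number -/
noncomputable def dil : ℚˣ →* Af where
  toFun u := ⟨|(u : ℚ)|, 0, abs_pos.2 u.ne_zero⟩
  map_one' := by
    apply Af.ext
    · show |((1 : ℚˣ) : ℚ)| = 1
      simp
    · rfl
  map_mul' u w := by
    apply Af.ext
    · show |((u * w : ℚˣ) : ℚ)| = |(u : ℚ)| * |(w : ℚ)|
      rw [Units.val_mul, abs_mul]
    · show (0 : ℚ) = |(u : ℚ)| * 0 + 0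
      ring

open Classical in
/-- **All affine maps with slopes in a group of index at most three.** -/
theorem part1 : ∃ H : Subgroup ℚˣ, -1 ∈ H ∧ 1 ≤ H.index ∧ H.index ≤ 3 ∧ ∃ f : ℕ → ℚ × ℚ,
    Function.Injective f ∧ Set.range f = {w | 0 < w.1 ∧ ∃ u ∈ H, ((u : ℚˣ) : ℚ) = w.1} ∧
    ∀ k : ℕ, 1 ≤ k → ∃ i₀, ∀ i, i₀ ≤ i → ∀ η : ℝ, 0 < η → ∃ᶠ N : ℕ in atTop,
      (N : ℝ) ^ (1 - η) ≤ (((Icc 1 N).filter (fun p : ℕ => p.Prime ∧ ∀ j < k, ∃ q : ℕ, q.Prime ∧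
        (q : ℚ) = (f (i + j)).1 * (((p : ℚ) - (f i).2) / (f i).1) + (f (i + j)).2)).card : ℝ) := by
  obtain ⟨T, h0, h3, x, hx1, hx2, hx3⟩ := aff_seq
  haveI : T.Normal := normal_aff T h0 h3
  have hidx : (T.comap dil).index ∣ T.index := by
    rw [Subgroup.index_comap]
    exact Subgroup.relIndex_dvd_index_of_normal T _
  have hpos : 0 < T.index := Nat.pos_of_ne_zero h0
  have hmem : ∀ (w : ℚ × ℚ) (hw : 0 < w.1), (⟨w.1, w.2, hw⟩ : Af) ∈ T ↔ (⟨w.1, 0, hw⟩ : Af) ∈ T := by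
    intro w hw
    have e : (⟨w.1, w.2, hw⟩ : Af) = tau w.2 * ⟨w.1, 0, hw⟩ := by
      apply Af.ext
      · show w.1 = 1 * w.1
        ring
      · show w.2 = 1 * 0 + w.2
        ring
    rw [e]
    exact Subgroup.mul_mem_cancel_left T (tau_mem T h0 h3 _)
  refine ⟨T.comap dil, ?_, Nat.pos_of_dvd_of_pos hidx hpos, (Nat.le_of_dvd hpos hidx).trans h3,
    fun i => ((x i).u, (x i).v), ?_, ?_, ?_⟩
  · rw [Subgroup.mem_comap]
    have e : dil (-1) = 1 := by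
      apply Af.ext
      · show |((-1 : ℚˣ) : ℚ)| = 1
        simp
      · rfl
    rw [e]
    exact T.one_mem
  · intro i j h
    simp only [Prod.mk.injEq] at h
    exact hx1 (Af.ext h.1 h.2)
  · ext w
    constructor
    · rintro ⟨i, rfl⟩
      have h1 : x i ∈ T := by
        have : x i ∈ Set.range x := ⟨i, rfl⟩
        rw [hx2] at this
        exact this
      refine ⟨(x i).pos, Units.mk0 (x i).u (x i).pos.ne', ?_, rfl⟩
      rw [Subgroup.mem_comap]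
      have h2 := (hmem ((x i).u, (x i).v) (x i).pos).1 h1
      have e : dil (Units.mk0 (x i).u (x i).pos.ne') = ⟨(x i).u, 0, (x i).pos⟩ := by
        apply Af.ext
        · show |(x i).u| = (x i).u
          exact abs_of_pos (x i).pos
        · rfl
      rw [e]
      exact h2
    · rintro ⟨hw, u, hu, huw⟩
      rw [Subgroup.mem_comap] at hu
      have e : dil u = ⟨w.1, 0, hw⟩ := by
        apply Af.ext
        · show |(u : ℚ)| = w.1
          rw [huw]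
          exact abs_of_pos hw
        · rfl
      rw [e] at hu
      have h2 := (hmem w hw).2 hu
      have h4 : (⟨w.1, w.2, hw⟩ : Af) ∈ Set.range x := by
        rw [hx2]
        exact h2
      obtain ⟨i, hi⟩ := h4
      refine ⟨i, ?_⟩
      dsimp only
      rw [hi]
  · intro k hk
    obtain ⟨i₀, hi₀⟩ := hx3 k
    refine ⟨i₀, fun i hi η hη => ?_⟩
    have h1 := app_sim (hi₀ i hi) (f₀ := x i) (mem_image.2 ⟨0, mem_range.2 (by omega), by simp⟩) η hη
    refine h1.mono fun N hN => hN.trans ?_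
    rw [Nat.cast_le]
    refine card_le_card (monotone_filter_right _ ?_)
    rintro p _ ⟨hp1, hp2⟩
    refine ⟨hp1, fun j hj => ?_⟩
    exact hp2 (x (i + j)) (mem_image.2 ⟨j, mem_range.2 hj, rfl⟩)

end Pool.Agent.Run7.h166.GS
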