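import Mathlib
import Pool.Agent.Run7.h166.GS.Fin

/-!
# All ratios of the numbers `p - c`, `p` prime, in one sequence
-/

set_option autoImplicit false

namespace Pool.Agent.Run7.h166.GS

open Filter Finset
open Pool.Agent.Run7.h166.TS (Pr)

/-- the positive rational numbers whose numerator and denominator are prime to `c` -/
def PC (c : ℤ) : Subgroup ℚˣ where
  carrier := {u | ∃ a b : ℕ, 0 < a ∧ 0 < b ∧ IsCoprime (a : ℤ) c ∧ IsCoprime (b : ℤ) c ∧
    (u : ℚ) = a / b}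
  mul_mem' := by
    rintro u w ⟨a, b, ha, hb, hac, hbc, h⟩ ⟨a', b', ha', hb', hac', hbc', h'⟩
    refine ⟨a * a', b * b', Nat.mul_pos ha ha', Nat.mul_pos hb hb', ?_, ?_, ?_⟩
    · push_cast; exact hac.mul_left hac'
    · push_cast; exact hbc.mul_left hbc'
    · rw [Units.val_mul, h, h']
      push_cast
      field_simp
  one_mem' := ⟨1, 1, one_pos, one_pos, by simpa using isCoprime_one_left, by
    simpa using isCoprime_one_left, by simp⟩
  inv_mem' := by
    rintro u ⟨a, b, ha, hb, hac, hbc, h⟩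
    refine ⟨b, a, hb, ha, hbc, hac, ?_⟩
    rw [Units.val_inv_eq_inv_val, h, inv_div]

theorem PC_pos {c : ℤ} (u : PC c) : 0 < ((u : ℚˣ) : ℚ) := by
  obtain ⟨a, b, ha, hb, -, -, h⟩ := u.2
  rw [h]
  have h1 : (0 : ℚ) < a := by exact_mod_cast ha
  have h2 : (0 : ℚ) < b := by exact_mod_cast hb
  positivity

/-- the homothety with centre `c` -/
noncomputable def hom (c : ℤ) : PC c →* Af where
  toFun u := ⟨((u : ℚˣ) : ℚ), c * (1 - ((u : ℚˣ) : ℚ)), PC_pos u⟩
  map_one' := by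
    apply Af.ext
    · show (((1 : PC c) : ℚˣ) : ℚ) = 1
      simp
    · show (c : ℚ) * (1 - (((1 : PC c) : ℚˣ) : ℚ)) = 0
      simp
  map_mul' u w := by
    apply Af.ext
    · show (((u * w : PC c) : ℚˣ) : ℚ) = ((u : ℚˣ) : ℚ) * ((w : ℚˣ) : ℚ)
      simp
    · show (c : ℚ) * (1 - (((u * w : PC c) : ℚˣ) : ℚ)) =
        ((u : ℚˣ) : ℚ) * (c * (1 - ((w : ℚˣ) : ℚ))) + c * (1 - ((u : ℚˣ) : ℚ))
      rw [Subgroup.coe_mul, Units.val_mul]
      ring

noncomputable instance (c : ℤ) : DecidableEq (PC c) := Classical.decEq _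

instance (c : ℤ) : Countable (PC c) := by
  have h : Function.Injective (fun u : PC c => ((u : ℚˣ) : ℚ)) := by
    intro u w h
    exact Subtype.ext (Units.ext h)
  exact h.countable

/-- the product of the positive integers up to `n + 1` which are prime to `c` -/
def bb (c : ℤ) (n : ℕ) : ℕ := ∏ j ∈ (Icc 1 (n + 1)).filter (fun j => Nat.Coprime j c.natAbs), j

theorem bb_pos (c : ℤ) (n : ℕ) : 0 < bb c n :=
  Finset.prod_pos fun j hj => (mem_Icc.1 (mem_filter.1 hj).1).1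

theorem cop_iff (j : ℕ) (c : ℤ) : IsCoprime (j : ℤ) c ↔ Nat.Coprime j c.natAbs := by
  rw [Int.isCoprime_iff_gcd_eq_one]
  exact Iff.rfl

theorem bb_cop (c : ℤ) (n : ℕ) : IsCoprime ((bb c n : ℕ) : ℤ) c := by
  rw [cop_iff]
  exact Nat.Coprime.prod_left fun j hj => (mem_filter.1 hj).2

theorem dvd_bb {c : ℤ} {n j : ℕ} (h1 : 1 ≤ j) (h2 : j ≤ n + 1) (h3 : IsCoprime (j : ℤ) c) : j ∣ bb c n :=
  Finset.dvd_prod_of_mem _ (mem_filter.2 ⟨mem_Icc.2 ⟨h1, h2⟩, (cop_iff j c).1 h3⟩)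

/-- the element `bb c n` of the group -/
noncomputable def bel (c : ℤ) (n : ℕ) : PC c :=
  ⟨Units.mk0 ((bb c n : ℕ) : ℚ) (by have := bb_pos c n; positivity), bb c n, 1, bb_pos c n, one_pos,
    bb_cop c n, by simpa using isCoprime_one_left, by simp⟩

noncomputable def UC (c : ℤ) : Ultrafilter (PC c) := (hyperfilter ℕ).map (bel c)

theorem UC_np {c : ℤ} (hc : c ≠ 0) : ∀ E : Finset (PC c), ∀ᶠ x in (UC c : Filter (PC c)), x ∉ E := by
  refine np_map fun y => ?_
  by_cases hy : ∃ n, bel c n = y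
  · obtain ⟨m, rfl⟩ := hy
    refine (Set.finite_lt_nat (c.natAbs * bb c m)).subset ?_
    intro n hn
    by_contra hcon
    have hcon' : c.natAbs * bb c m ≤ n := not_lt.1 hcon
    have h1 : ((bb c n : ℕ) : ℚ) = bb c m := congrArg (fun u : PC c => ((u : ℚˣ) : ℚ)) hn
    have h2 : bb c n = bb c m := by exact_mod_cast h1
    have h3 : c.natAbs * bb c m + 1 ∣ bb c n := by
      refine dvd_bb (by omega) (by omega) ?_
      rw [cop_iff, Nat.coprime_mul_left_add_left]
      exact Nat.coprime_one_left _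
    have h5 := Nat.le_of_dvd (bb_pos c n) h3
    rw [h2] at h5
    have h6 : 0 < c.natAbs := Int.natAbs_pos.2 hc
    have h7 : bb c m ≤ c.natAbs * bb c m := Nat.le_mul_of_pos_left _ h6
    omega
  · refine Set.finite_empty.subset ?_
    intro n hn
    exact hy ⟨n, hn⟩

/-- the elements of `F` are the ratios of numbers `p - c`, `p` prime -/
def AppC (c : ℤ) (F : Finset (PC c)) : Prop := App (F.image (hom c))

theorem appC_hered (c : ℤ) : ∀ s t : Finset (PC c), s ⊆ t → AppC c t → AppC c s := by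
  intro s t hst h
  exact app_hered _ _ (image_subset_image hst) h

theorem appC_inv (c : ℤ) (w : PC c) (s : Finset (PC c)) (h : AppC c s) :
    AppC c (s.image (fun x => x * w)) := by
  unfold AppC at *
  have h1 := app_inv (hom c w) _ h
  rw [image_image] at h1 ⊢
  have e : (fun x => x * hom c w) ∘ (hom c) = (hom c) ∘ fun x => x * w := by
    funext x
    simp
  rwa [e] at h1

theorem hD_rat {c : ℤ} (hc : c ≠ 0) (k : ℕ) (z : Fin (3 + 1) → PC c) : ∃ g g' : Fin (3 + 1), g < g' ∧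
    Dir (AppC c) k (tr (UC c) (z g)) (tr (UC c) (z g')) := by
  classical
  obtain ⟨S, K, hS, hK, H⟩ := hits_of k
  have hz : ∀ g, ∃ a b : ℕ, 0 < a ∧ 0 < b ∧ IsCoprime (a : ℤ) c ∧ IsCoprime (b : ℤ) c ∧
      (((z g : PC c) : ℚˣ) : ℚ) = a / b := fun g => (z g).2
  choose a d ha hd hac hdc hzad using hz
  set D : ℕ := ∏ g, d g with hD
  have hDpos : 0 < D := Finset.prod_pos fun g _ => hd g
  have hDc : IsCoprime (D : ℤ) c := by
    rw [cop_iff]
    exact Nat.Coprime.prod_left fun g _ => (cop_iff _ _).1 (hdc g)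
  set C : Fin (3 + 1) → Set (PC c) := fun g => {f | ∃ n : ℕ, D ≤ n + 1 ∧ f = bel c n * z g} with hC
  have hform : ∀ g, ∀ f ∈ C g, ∃ A : ℤ, (A : ℚ) = ((f : ℚˣ) : ℚ) ∧ 1 ≤ A ∧ IsCoprime A c := by
    rintro g f ⟨n, hn, rfl⟩
    obtain ⟨t, ht⟩ := (Finset.dvd_prod_of_mem d (Finset.mem_univ g)).trans
      (dvd_bb (c := c) (n := n) hDpos hn hDc)
    have hdq : (0 : ℚ) < d g := by exact_mod_cast hd g
    have htpos : 0 < t := by
      rcases Nat.eq_zero_or_pos t with h | h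
      · rw [h, mul_zero] at ht
        exact absurd ht (bb_pos c n).ne'
      · exact h
    have htc : IsCoprime (t : ℤ) c := by
      refine (bb_cop c n).of_isCoprime_of_dvd_left ?_
      exact_mod_cast Dvd.intro_left _ ht.symm
    refine ⟨(t * a g : ℕ), ?_, ?_, ?_⟩
    · have h1 : (((bel c n * z g : PC c) : ℚˣ) : ℚ) = (bb c n : ℚ) * (a g / d g) := by
        rw [Subgroup.coe_mul, Units.val_mul, hzad]
        rfl
      rw [h1, ht]
      push_cast
      field_simp
    · have := Nat.mul_pos htpos (ha g)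
      exact_mod_cast this
    · push_cast
      exact htc.mul_left (hac g)
  have hnum : ∀ g, ∀ f ∈ C g, ((((f : ℚˣ) : ℚ).num : ℤ) : ℚ) = ((f : ℚˣ) : ℚ) ∧
      1 ≤ ((f : ℚˣ) : ℚ).num ∧ IsCoprime ((f : ℚˣ) : ℚ).num c := by
    intro g f hf
    obtain ⟨A, h1, h2, h3⟩ := hform g f hf
    have e1 : ((f : ℚˣ) : ℚ).num = A := by rw [← h1, Rat.num_intCast]
    rw [e1]
    exact ⟨h1, h2, h3⟩
  have hHits : Hits (AppC c) k S K C := by
    refine H (AppC c) C (fun f => (((f : ℚˣ) : ℚ).num, c)) ?_ ?_ ?_ ?_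
    · intro g f hf g' f' hf' h
      simp only [Prod.mk.injEq, and_true] at h
      obtain ⟨h1, -⟩ := hnum g f hf
      obtain ⟨h3, -⟩ := hnum g' f' hf'
      exact Subtype.ext (Units.ext (by rw [← h1, ← h3, h]))
    · intro g f hf
      obtain ⟨-, h3, h4⟩ := hnum g f hf
      exact ⟨h3, h4⟩
    · intro p hp hpB
      by_cases hpc : (p : ℤ) ∣ c
      · refine ⟨1, fun g f hf h => ?_⟩
        obtain ⟨-, -, h4⟩ := hnum g f hf
        have h5 : (p : ℤ) ∣ ((f : ℚˣ) : ℚ).num := by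
          have := dvd_sub h hpc
          simpa using this
        exact (Nat.prime_iff_prime_int.1 hp).not_isUnit (h4.isUnit_of_dvd' h5 hpc)
      · refine ⟨0, fun g f hf h => hpc ?_⟩
        simpa using h
    · intro s hs hcount
      refine ⟨tau c, fun η hη => (hcount η hη).mono fun N hN => hN.trans ?_⟩
      rw [Nat.cast_le]
      refine card_le_card ?_
      unfold Cnt
      refine monotone_filter_right _ ?_
      intro n _ hn f' hf'
      obtain ⟨f, hf, rfl⟩ := mem_image.1 hf'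
      obtain ⟨g, hg⟩ := hs f hf
      obtain ⟨h1, h2, -⟩ := hnum g f hg
      have h3 := hn f hf
      unfold Pr at h3
      refine ⟨_, h3, ?_⟩
      have h4 : ((((((f : ℚˣ) : ℚ).num) * n + c).toNat : ℤ)) = ((f : ℚˣ) : ℚ).num * n + c := by
        apply Int.toNat_of_nonneg
        by_contra h5
        dsimp only at h3
        rw [Int.toNat_of_nonpos (by omega)] at h3
        exact Nat.not_prime_zero h3
      have e1 : (hom c f * tau c).u = ((f : ℚˣ) : ℚ) := by
        show ((f : ℚˣ) : ℚ) * 1 = _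
        ring
      have e2 : (hom c f * tau c).v = c := by
        show ((f : ℚˣ) : ℚ) * (c : ℚ) + (c : ℚ) * (1 - ((f : ℚˣ) : ℚ)) = c
        ring
      rw [e1, e2, ← h1]
      exact_mod_cast h4
  refine dir_of_hits (appC_hered c) (fun g => tr (UC c) (z g)) (fun g => tr_np (UC_np hc) (z g)) C ?_ hHits
  intro g
  refine mem_tr ?_
  unfold UC
  rw [Ultrafilter.coe_map, Filter.eventually_map]
  refine Nat.hyperfilter_le_atTop ?_
  filter_upwards [eventually_ge_atTop D] with n hn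
  exact ⟨n, by omega, rfl⟩

open Classical in
/-- **All ratios in a group of index at most three.** -/
theorem part2 {c : ℤ} (hc : c ≠ 0) : ∃ H : Subgroup ℚˣ, H ≤ PC c ∧ 1 ≤ H.relIndex (PC c) ∧
    H.relIndex (PC c) ≤ 3 ∧ ∃ u : ℕ → ℚˣ, Function.Injective u ∧ Set.range u = H ∧
    ∀ k : ℕ, 1 ≤ k → ∃ i₀, ∀ i, i₀ ≤ i → ∀ η : ℝ, 0 < η → ∃ᶠ N : ℕ in atTop,
      (N : ℝ) ^ (1 - η) ≤ (((Icc 1 N).filter (fun p : ℕ => p.Prime ∧ ∀ j < k, ∃ q : ℕ, q.Prime ∧
        ((q : ℚ) - c) * (u i : ℚ) = ((p : ℚ) - c) * (u (i + j) : ℚ))).card : ℝ) := by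
  obtain ⟨T, h0, h3, x, hx1, hx2, hx3⟩ := one_seq (appC_hered c) (appC_inv c) (UC_np hc) (hD_rat hc)
    (fun T _ _ => inferInstance)
  have hidx : (T.map (PC c).subtype).relIndex (PC c) = T.index := by
    unfold Subgroup.relIndex
    congr 1
    unfold Subgroup.subgroupOf
    exact Subgroup.comap_map_eq_self_of_injective (Subgroup.subtype_injective _) T
  refine ⟨T.map (PC c).subtype, ?_, ?_, ?_, fun i => ((x i : PC c) : ℚˣ), ?_, ?_, ?_⟩
  · rintro _ ⟨u, -, rfl⟩
    exact u.2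
  · rw [hidx]
    exact Nat.pos_of_ne_zero h0
  · rw [hidx]
    exact h3
  · intro i j h
    exact hx1 (Subtype.ext h)
  · ext w
    constructor
    · rintro ⟨i, rfl⟩
      have h1 : x i ∈ T := by
        have : x i ∈ Set.range x := ⟨i, rfl⟩
        rw [hx2] at this
        exact this
      exact ⟨x i, h1, rfl⟩
    · rintro ⟨u, hu, rfl⟩
      have h1 : u ∈ Set.range x := by
        rw [hx2]
        exact hu
      obtain ⟨i, rfl⟩ := h1
      exact ⟨i, rfl⟩
  · intro k hk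
    obtain ⟨i₀, hi₀⟩ := hx3 k
    refine ⟨i₀, fun i hi η hη => ?_⟩
    have h1 := app_sim (hi₀ i hi) (f₀ := hom c (x i)) (mem_image_of_mem _
      (mem_image.2 ⟨0, mem_range.2 (by omega), by simp⟩)) η hη
    refine h1.mono fun N hN => hN.trans ?_
    rw [Nat.cast_le]
    refine card_le_card (monotone_filter_right _ ?_)
    rintro p _ ⟨hp1, hp2⟩
    refine ⟨hp1, fun j hj => ?_⟩
    obtain ⟨q, hq1, hq2⟩ := hp2 (hom c (x (i + j))) (mem_image_of_mem _
      (mem_image.2 ⟨j, mem_range.2 hj, rfl⟩))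
    refine ⟨q, hq1, ?_⟩
    have e1 : ∀ u : PC c, (hom c u).u = ((u : ℚˣ) : ℚ) := fun u => rfl
    have e2 : ∀ u : PC c, (hom c u).v = c * (1 - ((u : ℚˣ) : ℚ)) := fun u => rfl
    rw [hq2, e1, e1, e2, e2]
    have h4 := (PC_pos (x i)).ne'
    field_simp
    ring

end Pool.Agent.Run7.h166.GS
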